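import Pool.Agent.E8helper78.FL.Stm

/-!
# Basic lemmas
-/

set_option autoImplicit false

open scoped RealInnerProductSpace NNReal

namespace Pool.Agent.E8helper78.FL

variable {V : Type} [NormedAddCommGroup V] [InnerProductSpace ℝ V]

lemma rf_apply {a : V} (ha : ‖a‖ = 1) (x : V) : rf a x = x - (2 * ⟪a, x⟫) • a := by
  unfold rf
  rw [Submodule.reflection_orthogonal_apply, Submodule.reflection_singleton_apply]
  simp only [ha, RCLike.ofReal_real_eq_id, id_eq, one_pow, div_one]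
  rw [neg_sub, two_smul, mul_smul, two_smul]

lemma rf_self {a : V} (ha : ‖a‖ = 1) : rf a a = -a := by
  rw [rf_apply ha, real_inner_self_eq_norm_sq, ha]
  norm_num
  rw [two_smul]
  abel

lemma rf_neg (a : V) : rf (-a) = rf a := by
  unfold rf
  congr 1
  have : (ℝ ∙ (-a)) = (ℝ ∙ a) := by
    rw [← neg_one_smul ℝ a]
    exact Submodule.span_singleton_smul_eq (IsUnit.mk0 (-1 : ℝ) (by norm_num)) a
  rw [this]

lemma rf_rf (a : V) (x : V) : rf a (rf a x) = x := Submodule.reflection_reflection _ x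

lemma rf_mul (a : V) : rf a * rf a = 1 := by
  ext x
  exact rf_rf a x

lemma rf_inv (a : V) : (rf a)⁻¹ = rf a := inv_eq_of_mul_eq_one_left (rf_mul a)

lemma inner_rf (a x y : V) : ⟪rf a x, y⟫ = ⟪x, rf a y⟫ := by
  have h := (rf a).inner_map_map x (rf a y)
  rw [rf_rf] at h
  exact h

lemma rf_fix {a : V} (ha : ‖a‖ = 1) {x : V} (h : ⟪a, x⟫ = 0) : rf a x = x := by
  rw [rf_apply ha, h]; simp

lemma rf_conj {a : V} (ha : ‖a‖ = 1) (g : V ≃ₗᵢ[ℝ] V) : rf (g a) = g * rf a * g⁻¹ := by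
  ext x
  have hg : ‖g a‖ = 1 := by rw [g.norm_map, ha]
  show rf (g a) x = g (rf a (g⁻¹ x))
  rw [rf_apply hg, rf_apply ha, map_sub, map_smul]
  have h1 : g (g⁻¹ x) = x := g.apply_symm_apply x
  have h2 : ⟪g a, x⟫ = ⟪a, g⁻¹ x⟫ := by
    rw [← g.inner_map_map a (g⁻¹ x), h1]
  rw [h1, h2]

@[simp] lemma pr_nil : pr ([] : List V) = 1 := rfl

lemma pr_cons (a : V) (L : List V) : pr (a :: L) = rf a * pr L := by simp [pr]

lemma pr_append (L M : List V) : pr (L ++ M) = pr L * pr M := by simp [pr]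

lemma pr_cons_apply (a : V) (L : List V) (x : V) : pr (a :: L) x = rf a (pr L x) := by
  rw [pr_cons]; rfl

lemma pr_append_apply (L M : List V) (x : V) : pr (L ++ M) x = pr L (pr M x) := by
  rw [pr_append]; rfl

lemma pr_single (a : V) : pr [a] = rf a := by simp [pr]

lemma pr_map_rf {a : V} {L : List V} (hL : ∀ b ∈ L, ‖b‖ = 1) :
    pr (L.map (rf a)) = rf a * pr L * rf a := by
  induction L with
  | nil => simp [rf_mul]
  | cons b L ih =>
    rw [List.map_cons, pr_cons, ih (fun x hx => hL x (by simp [hx])), pr_cons,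
      rf_conj (hL b (by simp)), rf_inv]
    calc rf a * rf b * rf a * (rf a * pr L * rf a) =
        rf a * rf b * (rf a * rf a) * pr L * rf a := by group
      _ = rf a * (rf b * pr L) * rf a := by rw [rf_mul]; group

section roots

variable {Φ : Set V} (hΦ : IsRoots Φ)
include hΦ

lemma IsRoots.neg {a : V} (ha : a ∈ Φ) : -a ∈ Φ := by
  have := hΦ.refl a ha a ha
  rwa [rf_self (hΦ.unit a ha)] at this

lemma IsRoots.ne {a : V} (ha : a ∈ Φ) : a ≠ 0 := by
  rintro rfl
  have := hΦ.unit 0 ha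
  simp at this

lemma IsRoots.inner {a : V} (ha : a ∈ Φ) : ⟪a, a⟫ = 1 := by
  rw [real_inner_self_eq_norm_sq, hΦ.unit a ha]; norm_num

lemma IsRoots.map {w : V ≃ₗᵢ[ℝ] V} (hw : w ∈ Wg Φ) {a : V} (ha : a ∈ Φ) : w a ∈ Φ := by
  unfold Wg at hw
  induction hw using Subgroup.closure_induction generalizing a with
  | mem x hx =>
    obtain ⟨b, hb, rfl⟩ := hx
    exact hΦ.refl b hb a ha
  | one => exact ha
  | mul x y _ _ hx hy => exact hx (hy ha)
  | inv x _ hx =>
    -- `x` permutes the finite set `Φ`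
    have hinj : Set.InjOn (fun v => x v) Φ := fun u _ v _ h => x.injective h
    have hsub : (fun v => x v) '' Φ ⊆ Φ := by
      rintro _ ⟨v, hv, rfl⟩
      exact hx hv
    have heq : (fun v => x v) '' Φ = Φ :=
      Set.eq_of_subset_of_ncard_le hsub (by rw [Set.ncard_image_of_injOn hinj]) hΦ.fin
    rw [← heq] at ha
    obtain ⟨v, hv, rfl⟩ := ha
    have : x⁻¹ (x v) = v := x.symm_apply_apply v
    show x⁻¹ (x v) ∈ Φ
    rw [this]; exact hv

end roots

lemma rf_mem {Φ : Set V} {a : V} (ha : a ∈ Φ) : rf a ∈ Wg Φ :=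
  Subgroup.subset_closure ⟨a, ha, rfl⟩

lemma pr_mem {Φ : Set V} {L : List V} (h : ∀ a ∈ L, a ∈ Φ) : pr L ∈ Wg Φ := by
  induction L with
  | nil => exact one_mem _
  | cons a L ih =>
    rw [pr_cons]
    exact mul_mem (rf_mem (h a (by simp))) (ih fun b hb => h b (by simp [hb]))

lemma Wg_mono {Φ Ψ : Set V} (h : Φ ⊆ Ψ) : Wg Φ ≤ Wg Ψ :=
  Subgroup.closure_mono (Set.image_mono h)

lemma inv_apply (w : V ≃ₗᵢ[ℝ] V) (x : V) : w⁻¹ (w x) = x := w.symm_apply_apply x

lemma apply_inv (w : V ≃ₗᵢ[ℝ] V) (x : V) : w (w⁻¹ x) = x := w.apply_symm_apply x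

lemma mul_apply' (w w' : V ≃ₗᵢ[ℝ] V) (x : V) : (w * w') x = w (w' x) := rfl

lemma mem_Mov {w : V ≃ₗᵢ[ℝ] V} {x : V} : x ∈ Mov w ↔ ∃ u, u - w u = x := by
  unfold Mov
  rw [LinearMap.mem_range]
  rfl

/-! ### the form -/

section form

variable {c : V ≃ₗᵢ[ℝ] V} {E : V →ₗ[ℝ] V →ₗ[ℝ] ℝ} (hE : IsE c E)
include hE

lemma IsE.inj {u : V} (h : c u = u) : u = 0 := by
  have h1 := hE u u
  rw [h, sub_self, map_zero, LinearMap.zero_apply] at h1
  exact inner_self_eq_zero.1 h1.symm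

lemma IsE.surj [FiniteDimensional ℝ V] (x : V) : ∃ u, u - c u = x := by
  have h1 : Function.Injective ((LinearMap.id : V →ₗ[ℝ] V) - (c.toLinearEquiv : V →ₗ[ℝ] V)) := by
    rw [← LinearMap.ker_eq_bot, LinearMap.ker_eq_bot']
    intro u hu
    have h2 : u - c u = 0 := hu
    exact hE.inj (sub_eq_zero.1 h2).symm
  obtain ⟨u, hu⟩ := LinearMap.surjective_of_injective h1 x
  exact ⟨u, hu⟩

lemma IsE.add [FiniteDimensional ℝ V] (x y : V) : E x y + E y x = ⟪x, y⟫ := by
  obtain ⟨u, rfl⟩ := hE.surj x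
  obtain ⟨v, rfl⟩ := hE.surj y
  rw [hE, hE]
  have h1 := c.inner_map_map u v
  simp only [inner_sub_left, inner_sub_right]
  rw [real_inner_comm u v, real_inner_comm (c u) v]
  linarith

lemma IsE.self [FiniteDimensional ℝ V] (x : V) : E x x = ‖x‖ ^ 2 / 2 := by
  have := hE.add x x
  rw [real_inner_self_eq_norm_sq] at this
  linarith

lemma IsE.root [FiniteDimensional ℝ V] {x : V} (hx : ‖x‖ = 1) : E x x = 1 / 2 := by
  rw [hE.self, hx]; norm_num

end form

/-! ### cones -/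

section cone

variable {S T : Set V}

lemma cone_mono (h : S ⊆ T) : cone S ≤ cone T := Submodule.span_mono h

lemma mem_cone {a : V} (h : a ∈ S) : a ∈ cone S := Submodule.subset_span h

lemma smul_cone {x : V} (h : x ∈ cone S) {t : ℝ} (ht : 0 ≤ t) : t • x ∈ cone S :=
  (cone S).smul_mem (⟨t, ht⟩ : ℝ≥0) h

lemma sum_cone {ι : Type} {s : Finset ι} {f : ι → V} (h : ∀ i ∈ s, f i ∈ cone S) :
    ∑ i ∈ s, f i ∈ cone S := Submodule.sum_mem _ h

lemma cone_induction {p : V → Prop} {x : V} (hx : x ∈ cone S) (mem : ∀ a ∈ S, p a) (zero : p 0)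
    (add : ∀ x y, p x → p y → p (x + y)) (smul : ∀ (t : ℝ) x, 0 ≤ t → p x → p (t • x)) : p x := by
  unfold cone at hx
  induction hx using Submodule.span_induction with
  | mem a ha => exact mem a ha
  | zero => exact zero
  | add x y _ _ hx hy => exact add x y hx hy
  | smul t x _ hx => exact smul t x t.2 hx

/-- linear functionals on a cone -/
lemma cone_nonneg {x : V} (hx : x ∈ cone S) (f : V →ₗ[ℝ] ℝ) (h : ∀ a ∈ S, 0 ≤ f a) : 0 ≤ f x := by
  refine cone_induction (p := fun x => 0 ≤ f x) hx h (by simp) ?_ ?_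
  · intro x y hx hy
    rw [map_add]; positivity
  · intro t x ht hx
    rw [map_smul, smul_eq_mul]; positivity

/-- a strictly positive functional vanishes only at zero -/
lemma cone_zero {x : V} (hx : x ∈ cone S) (f : V →ₗ[ℝ] ℝ) (h : ∀ a ∈ S, 0 < f a) (h0 : f x = 0) :
    x = 0 := by
  have key : 0 ≤ f x ∧ (f x = 0 → x = 0) := by
    refine cone_induction (p := fun x => 0 ≤ f x ∧ (f x = 0 → x = 0)) hx ?_ ?_ ?_ ?_
    · intro a ha
      exact ⟨(h a ha).le, fun h1 => absurd h1 (h a ha).ne'⟩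
    · simp
    · rintro x y ⟨h1, h2⟩ ⟨h3, h4⟩
      rw [map_add]
      refine ⟨by positivity, fun h5 => ?_⟩
      rw [h2 (by linarith), h4 (by linarith), add_zero]
    · rintro t x ht ⟨h1, h2⟩
      rw [map_smul, smul_eq_mul]
      refine ⟨by positivity, fun h5 => ?_⟩
      rcases mul_eq_zero.1 h5 with h6 | h6
      · rw [h6, zero_smul]
      · rw [h2 h6, smul_zero]
  exact key.2 h0

/-- the coefficients of an element of a finitely generated cone -/
lemma exists_coeff (hS : S.Finite) {x : V} (hx : x ∈ cone S) :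
    ∃ a : V → ℝ, (∀ b, 0 ≤ a b) ∧ (∀ b, b ∉ S → a b = 0) ∧ x = ∑ b ∈ hS.toFinset, a b • b := by
  classical
  refine cone_induction (p := fun x => ∃ a : V → ℝ, (∀ b, 0 ≤ a b) ∧ (∀ b, b ∉ S → a b = 0) ∧
    x = ∑ b ∈ hS.toFinset, a b • b) hx ?_ ?_ ?_ ?_
  · intro b hb
    refine ⟨fun d => if d = b then 1 else 0, fun d => by dsimp; split_ifs <;> norm_num, ?_, ?_⟩
    · intro d hd
      dsimp
      rw [if_neg]
      rintro rfl
      exact hd hb
    · simp [Finset.sum_ite_eq', hb]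
  · exact ⟨fun _ => 0, fun _ => le_rfl, fun _ _ => rfl, by simp⟩
  · rintro x y ⟨a, h1, h2, rfl⟩ ⟨a', h1', h2', rfl⟩
    refine ⟨fun b => a b + a' b, fun b => add_nonneg (h1 b) (h1' b), ?_, ?_⟩
    · intro b hb
      simp [h2 b hb, h2' b hb]
    · rw [← Finset.sum_add_distrib]
      exact Finset.sum_congr rfl fun b _ => (add_smul _ _ _).symm
  · rintro t x ht ⟨a, h1, h2, rfl⟩
    refine ⟨fun b => t * a b, fun b => mul_nonneg ht (h1 b), ?_, ?_⟩
    · intro b hb
      simp [h2 b hb]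
    · rw [Finset.smul_sum]
      exact Finset.sum_congr rfl fun b _ => by rw [mul_smul]

lemma map_cone (g : V ≃ₗᵢ[ℝ] V) {x : V} (hx : x ∈ cone S) : g x ∈ cone ((fun v => g v) '' S) := by
  refine cone_induction (p := fun x => g x ∈ cone ((fun v => g v) '' S)) hx ?_ ?_ ?_ ?_
  · intro a ha
    exact mem_cone ⟨a, ha, rfl⟩
  · rw [map_zero]; exact zero_mem _
  · intro x y hx hy
    rw [map_add]; exact add_mem hx hy
  · intro t x ht hx
    rw [map_smul]; exact smul_cone hx ht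

lemma cone_le_span {x : V} (hx : x ∈ cone S) : x ∈ Submodule.span ℝ S := by
  refine cone_induction (p := fun x => x ∈ Submodule.span ℝ S) hx ?_ ?_ ?_ ?_
  · intro a ha
    exact Submodule.subset_span ha
  · exact zero_mem _
  · intro x y hx hy
    exact add_mem hx hy
  · intro t x ht hx
    exact Submodule.smul_mem _ _ hx

end cone

end Pool.Agent.E8helper78.FL
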