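import Pool.Agent.E8helper78.FL.Lst

/-!
# The compatibility relation exists
-/

set_option autoImplicit false

open scoped RealInnerProductSpace NNReal

namespace Pool.Agent.E8helper78.FL

section

variable {V : Type} [NormedAddCommGroup V] [InnerProductSpace ℝ V]
variable (Φ : Set V) (A B : List V) (m : ℕ)

/-- twice the number of rotations, plus the part -/
noncomputable def TT (x : V × ℕ) : ℕ := 2 * KK Φ A B m x + ee Φ A B m x

/-- one half of the relation -/
def DD (E : V →ₗ[ℝ] V →ₗ[ℝ] ℝ) (x y : V × ℕ) : Prop :=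
  kle (key Φ A B m x) (key Φ A B m y) → E x.1 y.1 = 0

/-- the relation -/
def RE (E : V →ₗ[ℝ] V →ₗ[ℝ] ℝ) (x y : V × ℕ) : Prop := DD Φ A B m E x y ∧ DD Φ A B m E y x

variable {Φ A B m}

lemma RE_symm {E : V →ₗ[ℝ] V →ₗ[ℝ] ℝ} {x y : V × ℕ} :
    RE Φ A B m E x y ↔ RE Φ A B m E y x := and_comm

variable (h : Bip Φ A B)
include h

lemma key_pos' {x : V × ℕ} (hx : x.1 ∈ Pos Φ A B) :
    key Φ A B m x = (x.2, TT Φ A B m x) := key_pos h hx

lemma TT_A {z : V × ℕ} (hz : -z.1 ∈ A) : TT Φ A B m z = 1 := by
  have h3 : KK Φ A B m z = 0 := KK_zero (List.mem_append_left _ hz)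
  unfold TT ee
  rw [h3, Function.iterate_zero, id, if_pos hz]

lemma TT_B {z : V × ℕ} (hz : -z.1 ∈ B) : TT Φ A B m z = 0 := by
  have h3 : KK Φ A B m z = 0 := KK_zero (List.mem_append_right _ hz)
  unfold TT ee
  rw [h3, Function.iterate_zero, id, if_neg (fun h4 => h.disj h4 hz)]

variable {E : V →ₗ[ℝ] V →ₗ[ℝ] ℝ} (hE : IsE (cox A B) E) [FiniteDimensional ℝ V]
include hE

lemma TT_rot (hm : 1 ≤ m) {x : V × ℕ} (hx : x ∈ AP Φ A B m) (hp : x.1 ∈ Pos Φ A B) :
    TT Φ A B m x = TT Φ A B m (rot Φ A B m x) + 2 := by
  have h1 := not_NS h hp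
  have h2 := h.meets hE hm hx
  unfold TT
  rw [KK_succ h1 h2, ee_rot h1 h2]
  ring

lemma TT_two (hm : 1 ≤ m) {x : V × ℕ} (hx : x ∈ AP Φ A B m) (hp : x.1 ∈ Pos Φ A B) :
    2 ≤ TT Φ A B m x := by
  rw [TT_rot h hE hm hx hp]; omega

/-- the first colour has the largest time -/
lemma TT_col (hm : 1 ≤ m) {y : V} (hy : y ∈ Pos Φ A B) :
    ∀ (d j : ℕ), j = 1 + d → j ≤ m → TT Φ A B m (y, j) ≤ TT Φ A B m (y, 1) := by
  intro d
  induction d with
  | zero => intro j hj _; rw [hj]
  | succ d ih =>
    intro j hj hjm
    have h1 := ih (j - 1) (by omega) (by omega)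
    have h2 := TT_rot h hE hm (x := (y, j - 1)) (Or.inl ⟨hy, by dsimp only; omega, by dsimp only; omega⟩) hy
    rw [rot_lt h hy (by omega : j - 1 < m)] at h2
    have h3 : j - 1 + 1 = j := by omega
    rw [h3] at h2
    omega

lemma s1 {a y : V} (ha : a ∈ A) (hy : y ∈ Pos Φ A B) : 0 ≤ E a y := by
  refine cone_nonneg hy.2 (E a) (fun b hb => ?_)
  by_cases hab : b = a
  · subst hab; rw [hE.root (h.unitA b ha)]; norm_num
  · rw [h.EA hE ha hb hab]

lemma s2 {b y : V} (hb : b ∈ B) (hy : y ∈ Pos Φ A B) : 0 ≤ E y b := by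
  refine cone_nonneg hy.2 (E.flip b) (fun d hd => ?_)
  show 0 ≤ E d b
  by_cases hab : d = b
  · subst hab; rw [hE.root (h.unitB d hb)]; norm_num
  · rw [h.EB hE hb hd hab]

lemma s3 {b y : V} (hb : b ∈ B) (hy : y ∈ Pos Φ A B) (hne : y ≠ b) : E b y ≤ 0 := by
  have h1 := s2 h hE hb (h.rf_pos (List.mem_append_right _ hb) hy hne)
  rw [rf_apply (h.unitB b hb), map_sub, map_smul, LinearMap.sub_apply, LinearMap.smul_apply,
    hE.root (h.unitB b hb), smul_eq_mul] at h1
  have h2 := hE.add b y
  linarith

lemma Bip.EAA {a a' : V} (ha : a ∈ A) (ha' : a' ∈ A) (hne : a ≠ a') : E a a' = 0 :=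
  h.EA hE ha (List.mem_append_left _ ha') (Ne.symm hne)

lemma Bip.EBB {b b' : V} (hb : b ∈ B) (hb' : b' ∈ B) (hne : b ≠ b') : E b b' = 0 :=
  h.EB hE hb' (List.mem_append_right _ hb) hne

lemma Bip.EAB {a b : V} (ha : a ∈ A) (hb : b ∈ B) : E a b = 0 :=
  h.EA hE ha (List.mem_append_right _ hb) (fun h1 => h.disj ha (h1 ▸ hb))

/-- the sign of the form -/
lemma sgn (hm : 1 ≤ m) : ∀ (k : ℕ) (x y : V) (i : ℕ), x ∈ Pos Φ A B → y ∈ Pos Φ A B → 1 ≤ i → i ≤ m →
    x ≠ y → KK Φ A B m (x, i) = k → TT Φ A B m (x, i) ≤ TT Φ A B m (y, i) → E x y ≤ 0 := by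
  intro k
  induction k with
  | zero =>
    intro x y i hx hy hi him hne hk hT
    have h1 := KK_succ (not_NS (x := (x, i)) h hx) (h.meets hE hm (Or.inl ⟨hx, hi, him⟩))
    rw [h1] at hk
    exact absurd hk (Nat.succ_ne_zero _)
  | succ k ih =>
    intro x y i hx hy hi him hne hk hT
    have hxA : (x, i) ∈ AP Φ A B m := Or.inl ⟨hx, hi, him⟩
    have hyA : (y, i) ∈ AP Φ A B m := Or.inl ⟨hy, hi, him⟩
    have h1 := KK_succ (not_NS (x := (x, i)) h hx) (h.meets hE hm hxA)
    have h2 := TT_rot h hE hm hxA hx
    have h3 := TT_rot h hE hm hyA hy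
    rcases him.lt_or_eq with hlt | heq
    · rw [rot_lt h hx hlt] at h1 h2
      rw [rot_lt h hy hlt] at h3
      exact ih x y (i + 1) hx hy (by omega) hlt hne (by omega) (by omega)
    · subst heq
      by_cases hxB : x ∈ B
      · exact s3 h hE hxB hy (Ne.symm hne)
      · rw [rot_top h hx hxB] at h1 h2
        by_cases hyB : y ∈ B
        · exfalso
          rw [rot_B h hyB, TT_B h (z := (-y, 1)) (by simpa using hyB)] at h3
          rcases h.cox_pos hx hxB with h5 | h5
          · have := TT_two h hE hm (x := (cox A B x, 1)) (Or.inl ⟨h5, le_rfl, hm⟩) h5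
            omega
          · rw [TT_A h (z := (cox A B x, 1)) h5] at h2
            omega
        · rw [rot_top h hy hyB] at h3
          rw [← hE.cc x y]
          rcases h.cox_pos hx hxB with h5 | h5
          · have h7 := TT_two h hE hm (x := (cox A B x, 1)) (Or.inl ⟨h5, le_rfl, hm⟩) h5
            rcases h.cox_pos hy hyB with h6 | h6
            · exact ih _ _ 1 h5 h6 le_rfl hm (fun h8 => hne ((cox A B).injective h8)) (by omega)
                (by omega)
            · exfalso
              rw [TT_A h (z := (cox A B y, 1)) h6] at h3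
              omega
          · rcases h.cox_pos hy hyB with h6 | h6
            · have h7 := s1 h hE h5 h6
              rw [map_neg, LinearMap.neg_apply] at h7
              linarith
            · have h7 : -(cox A B x) ≠ -(cox A B y) := fun h8 =>
                hne ((cox A B).injective (neg_injective h8))
              have h8 := h.EAA hE h5 h6 h7
              rw [map_neg, map_neg, LinearMap.neg_apply, neg_neg] at h8
              exact h8.le

lemma sgn' (hm : 1 ≤ m) {x y : V} (hx : x ∈ Pos Φ A B) (hy : y ∈ Pos Φ A B) (hne : x ≠ y)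
    (hT : TT Φ A B m (x, 1) ≤ TT Φ A B m (y, 1)) : E x y ≤ 0 :=
  sgn h hE hm _ x y 1 hx hy le_rfl hm hne rfl hT

/-- the relation for a negative simple root of `A` -/
lemma RE_A {a : V} (ha : a ∈ A) {y : V × ℕ} (hy : y ∈ AP Φ A B m) :
    RE Φ A B m E (-a, 1) y ↔ E a y.1 = 0 := by
  have kA : key Φ A B m (-a, 1) = (0, 0) := key_A (by simpa using ha)
  unfold RE DD
  rw [kA]
  dsimp only
  rcases hy with ⟨h1, h2, -⟩ | ⟨h1, -⟩
  · rw [key_pos' h h1]
    constructor
    · rintro ⟨h3, -⟩
      have := h3 (Or.inl (by dsimp only; omega))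
      rwa [map_neg, LinearMap.neg_apply, neg_eq_zero] at this
    · intro h3
      refine ⟨fun _ => by rw [map_neg, LinearMap.neg_apply, h3, neg_zero], fun h4 => ?_⟩
      exfalso
      rcases h4 with h4 | ⟨h4, -⟩
      · exact absurd h4 (Nat.not_lt_zero _)
      · dsimp only at h4; omega
  · rcases List.mem_append.1 h1 with h3 | h3
    · rw [key_A h3]
      obtain ⟨b, hb⟩ : ∃ b, b = -y.1 := ⟨_, rfl⟩
      have hyb : y.1 = -b := by rw [hb, neg_neg]
      rw [← hb] at h3
      rw [hyb]
      by_cases hab : a = b
      · subst hab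
        have h4 := hE.root (h.unitA a ha)
        constructor
        · rintro ⟨h5, -⟩
          have := h5 (Or.inr ⟨rfl, le_rfl⟩)
          rw [map_neg, map_neg, LinearMap.neg_apply, neg_neg, h4] at this
          norm_num at this
        · intro h5
          rw [map_neg, h4] at h5
          norm_num at h5
      · have h4 := h.EAA hE ha h3 hab
        have h5 := h.EAA hE h3 ha (Ne.symm hab)
        constructor
        · intro _; rw [map_neg, h4, neg_zero]
        · intro _
          exact ⟨fun _ => by rw [map_neg, map_neg, LinearMap.neg_apply, neg_neg, h4],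
            fun _ => by rw [map_neg, map_neg, LinearMap.neg_apply, neg_neg, h5]⟩
    · rw [key_B h h3]
      obtain ⟨b, hb⟩ : ∃ b, b = -y.1 := ⟨_, rfl⟩
      have hyb : y.1 = -b := by rw [hb, neg_neg]
      rw [← hb] at h3
      rw [hyb]
      have h4 := h.EAB hE ha h3
      constructor
      · intro _; rw [map_neg, h4, neg_zero]
      · intro _
        refine ⟨fun _ => by rw [map_neg, map_neg, LinearMap.neg_apply, neg_neg, h4], fun h5 => ?_⟩
        exfalso
        rcases h5 with h5 | ⟨h5, -⟩
        · exact absurd h5 (Nat.not_lt_zero _)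
        · dsimp only at h5; omega

/-- the relation for a negative simple root of `B` -/
lemma RE_B {b : V} (hb : b ∈ B) {y : V × ℕ} (hy : y ∈ AP Φ A B m) :
    RE Φ A B m E (-b, 1) y ↔ E y.1 b = 0 := by
  have kB : key Φ A B m (-b, 1) = (m + 1, 0) := key_B h (by simpa using hb)
  unfold RE DD
  rw [kB]
  dsimp only
  rcases hy with ⟨h1, h2, h2'⟩ | ⟨h1, -⟩
  · rw [key_pos' h h1]
    constructor
    · rintro ⟨-, h3⟩
      have := h3 (Or.inl (by dsimp only; omega))
      rwa [map_neg, neg_eq_zero] at this
    · intro h3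
      refine ⟨fun h4 => ?_, fun _ => by rw [map_neg, h3, neg_zero]⟩
      exfalso
      rcases h4 with h4 | ⟨h4, -⟩
      · dsimp only at h4; omega
      · dsimp only at h4; omega
  · rcases List.mem_append.1 h1 with h3 | h3
    · rw [key_A h3]
      obtain ⟨a, ha⟩ : ∃ a, a = -y.1 := ⟨_, rfl⟩
      have hya : y.1 = -a := by rw [ha, neg_neg]
      rw [← ha] at h3
      rw [hya]
      have h4 := h.EAB hE h3 hb
      constructor
      · intro _; rw [map_neg, LinearMap.neg_apply, h4, neg_zero]
      · intro _
        refine ⟨fun h5 => ?_, fun _ => by rw [map_neg, map_neg, LinearMap.neg_apply, neg_neg, h4]⟩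
        exfalso
        rcases h5 with h5 | ⟨h5, -⟩
        · exact absurd h5 (Nat.not_lt_zero _)
        · dsimp only at h5; omega
    · rw [key_B h h3]
      obtain ⟨a, ha⟩ : ∃ a, a = -y.1 := ⟨_, rfl⟩
      have hya : y.1 = -a := by rw [ha, neg_neg]
      rw [← ha] at h3
      rw [hya]
      by_cases hab : a = b
      · subst hab
        have h4 := hE.root (h.unitB a hb)
        constructor
        · rintro ⟨h5, -⟩
          have := h5 (Or.inr ⟨rfl, le_rfl⟩)
          rw [map_neg, map_neg, LinearMap.neg_apply, neg_neg, h4] at this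
          norm_num at this
        · intro h5
          rw [map_neg, LinearMap.neg_apply, h4] at h5
          norm_num at h5
      · have h4 := h.EBB hE h3 hb hab
        have h5 := h.EBB hE hb h3 (Ne.symm hab)
        constructor
        · intro _; rw [map_neg, LinearMap.neg_apply, h4, neg_zero]
        · intro _
          exact ⟨fun _ => by rw [map_neg, map_neg, LinearMap.neg_apply, neg_neg, h5],
            fun _ => by rw [map_neg, map_neg, LinearMap.neg_apply, neg_neg, h4]⟩

/-- the rotation step forwards, for two positive roots -/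
lemma fwd (hm : 1 ≤ m) {x y : V × ℕ} (hx : x ∈ AP Φ A B m) (hy : y ∈ AP Φ A B m)
    (hxp : x.1 ∈ Pos Φ A B) (hyp : y.1 ∈ Pos Φ A B) (hR : RE Φ A B m E x y) :
    DD Φ A B m E (rot Φ A B m x) (rot Φ A B m y) := by
  have hTx := TT_rot h hE hm hx hxp
  have hTy := TT_rot h hE hm hy hyp
  obtain ⟨x, i⟩ := x
  obtain ⟨y, j⟩ := y
  obtain ⟨h1, h2⟩ := hR
  obtain ⟨hi1, him⟩ : 1 ≤ i ∧ i ≤ m := by
    rcases hx with h3 | h3
    · exact h3.2
    · exact absurd h3.1 (not_NS (x := (x, i)) h hxp)
  obtain ⟨hj1, hjm⟩ : 1 ≤ j ∧ j ≤ m := by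
    rcases hy with h3 | h3
    · exact h3.2
    · exact absurd h3.1 (not_NS (x := (y, j)) h hyp)
  dsimp only at hxp hyp
  unfold DD at h1 h2 ⊢
  rw [key_pos' h (x := (x, i)) hxp, key_pos' h (x := (y, j)) hyp] at h1 h2
  dsimp only [kle] at h1 h2
  rcases him.lt_or_eq with hi | hi
  · rw [rot_lt h hxp hi] at hTx ⊢
    rw [key_pos' h (x := (x, i + 1)) hxp]
    rcases hjm.lt_or_eq with hj | hj
    · rw [rot_lt h hyp hj] at hTy ⊢
      rw [key_pos' h (x := (y, j + 1)) hyp]
      intro h3
      apply h1
      dsimp only [kle] at h3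
      omega
    · subst hj
      by_cases hyB : y ∈ B
      · rw [rot_B h hyB]
        intro _
        dsimp only
        rw [map_neg, neg_eq_zero]
        exact h1 (Or.inl hi)
      · rw [rot_top h hyp hyB]
        intro h3
        exfalso
        rcases h.cox_pos hyp hyB with h4 | h4
        · rw [key_pos' h (x := (cox A B y, 1)) h4] at h3
          dsimp only [kle] at h3
          omega
        · rw [key_A (x := (cox A B y, 1)) h4] at h3
          dsimp only [kle] at h3
          omega
  · subst hi
    by_cases hxB : x ∈ B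
    · rw [rot_B h hxB] at hTx ⊢
      rw [key_B h (x := (-x, 1)) (by simpa using hxB)]
      rw [TT_B h (z := (-x, 1)) (by simpa using hxB)] at hTx
      rcases hjm.lt_or_eq with hj | hj
      · rw [rot_lt h hyp hj, key_pos' h (x := (y, j + 1)) hyp]
        intro h3
        exfalso
        dsimp only [kle] at h3
        omega
      · subst hj
        by_cases hyB : y ∈ B
        · rw [rot_B h hyB] at hTy ⊢
          rw [TT_B h (z := (-y, 1)) (by simpa using hyB)] at hTy
          intro _
          dsimp only
          rw [map_neg, map_neg, LinearMap.neg_apply, neg_neg]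
          exact h1 (Or.inr ⟨rfl, by omega⟩)
        · rw [rot_top h hyp hyB]
          intro h3
          exfalso
          rcases h.cox_pos hyp hyB with h4 | h4
          · rw [key_pos' h (x := (cox A B y, 1)) h4] at h3
            dsimp only [kle] at h3
            omega
          · rw [key_A (x := (cox A B y, 1)) h4] at h3
            dsimp only [kle] at h3
            omega
    · rw [rot_top h hxp hxB] at hTx ⊢
      rcases hjm.lt_or_eq with hj | hj
      · rw [rot_lt h hyp hj]
        intro _
        dsimp only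
        rw [hE.cflip, neg_eq_zero]
        exact h2 (Or.inl hj)
      · subst hj
        by_cases hyB : y ∈ B
        · rw [rot_B h hyB] at hTy ⊢
          rw [TT_B h (z := (-y, 1)) (by simpa using hyB)] at hTy
          intro _
          dsimp only
          rw [map_neg, hE.cflip, neg_neg]
          refine h2 (Or.inr ⟨rfl, ?_⟩)
          have := TT_two h hE hm hx hxp
          omega
        · rw [rot_top h hyp hyB] at hTy ⊢
          intro h3
          dsimp only
          rw [hE.cc]
          apply h1
          rcases h.cox_pos hxp hxB with h5 | h5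
          · rw [key_pos' h (x := (cox A B x, 1)) h5] at h3
            rcases h.cox_pos hyp hyB with h6 | h6
            · rw [key_pos' h (x := (cox A B y, 1)) h6] at h3
              dsimp only [kle] at h3
              omega
            · rw [key_A (x := (cox A B y, 1)) h6] at h3
              dsimp only [kle] at h3
              omega
          · rw [TT_A h (z := (cox A B x, 1)) h5] at hTx
            rcases h.cox_pos hyp hyB with h6 | h6
            · have := TT_two h hE hm (x := (cox A B y, 1)) (Or.inl ⟨h6, le_rfl, hm⟩) h6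
              omega
            · rw [TT_A h (z := (cox A B y, 1)) h6] at hTy
              omega

/-- invariance, two positive roots -/
lemma inv_pp (hm : 1 ≤ m) {x y : V × ℕ} (hx : x ∈ AP Φ A B m) (hy : y ∈ AP Φ A B m)
    (hxp : x.1 ∈ Pos Φ A B) (hyp : y.1 ∈ Pos Φ A B) :
    RE Φ A B m E x y ↔ RE Φ A B m E (rot Φ A B m x) (rot Φ A B m y) := by
  constructor
  · intro hR
    exact ⟨fwd h hE hm hx hy hxp hyp hR, fwd h hE hm hy hx hyp hxp (RE_symm.1 hR)⟩
  · rintro ⟨h1, h2⟩
    exact ⟨step h hE hm hx hy (not_NS h hxp) (not_NS h hyp) h1 h2,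
      step h hE hm hy hx (not_NS h hyp) (not_NS h hxp) h2 h1⟩


/-- invariance, one negative simple root in `A` -/
lemma inv_A (hm : 1 ≤ m) {a : V} (ha : a ∈ A) {y : V × ℕ} (hy : y ∈ AP Φ A B m) :
    RE Φ A B m E (-a, 1) y ↔ RE Φ A B m E (a, 1) (rot Φ A B m y) := by
  rw [RE_A h hE ha hy]
  have hap := h.simple_pos (List.mem_append_left B ha)
  have haa := hE.root (h.unitA a ha)
  have ka : key Φ A B m (a, 1) = _ := key_pos' h (x := (a, 1)) hap
  obtain ⟨y, j⟩ := y
  rcases hy with ⟨hyp, hj1, hjm⟩ | ⟨hyn, hj⟩
  · dsimp only at hyp hj1 hjm ⊢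
    have hTy := TT_rot h hE hm (x := (y, j)) (Or.inl ⟨hyp, hj1, hjm⟩) hyp
    unfold RE DD
    rw [ka]
    rcases hjm.lt_or_eq with hj | hj
    · rw [rot_lt h hyp hj, key_pos' h (x := (y, j + 1)) hyp]
      dsimp only [kle]
      constructor
      · intro h1
        exact ⟨fun _ => h1, fun h2 => by exfalso; omega⟩
      · rintro ⟨h1, -⟩
        exact h1 (Or.inl (by omega))
    · subst hj
      by_cases hyB : y ∈ B
      · have h4 := h.EAB hE ha hyB
        rw [rot_B h hyB, key_B h (x := (-y, 1)) (by simpa using hyB)]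
        dsimp only [kle]
        constructor
        · intro _
          exact ⟨fun _ => by rw [map_neg, h4, neg_zero], fun h2 => by exfalso; omega⟩
        · intro _; exact h4
      · rw [rot_top h hyp hyB] at hTy ⊢
        dsimp only
        rcases h.cox_pos hyp hyB with h5 | h5
        · rw [key_pos' h (x := (cox A B y, 1)) h5]
          dsimp only [kle]
          have hcol := TT_col h hE hm hyp (j - 1) j (by omega) le_rfl
          constructor
          · intro h1
            have h6 : E (cox A B y) a = 0 := by rw [hE.cflip, h1, neg_zero]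
            refine ⟨fun h7 => ?_, fun _ => h6⟩
            have hne : a ≠ cox A B y := by
              intro h8
              rw [← h8, haa] at h6
              norm_num at h6
            exact le_antisymm (sgn' h hE hm hap h5 hne (by omega)) (s1 h hE ha h5)
          · rintro ⟨h1, h2⟩
            by_cases h7 : TT Φ A B j (cox A B y, 1) ≤ TT Φ A B j (a, 1)
            · have := h2 (Or.inr ⟨rfl, h7⟩)
              rw [hE.cflip, neg_eq_zero] at this
              exact this
            · have hne : a ≠ y := by
                rintro rfl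
                omega
              exact le_antisymm (sgn' h hE hm hap hyp hne (by omega)) (s1 h hE ha hyp)
        · rw [key_A (x := (cox A B y, 1)) h5]
          dsimp only [kle]
          constructor
          · intro h1
            refine ⟨fun h7 => by exfalso; omega, fun _ => ?_⟩
            rw [hE.cflip, h1, neg_zero]
          · rintro ⟨-, h2⟩
            have := h2 (Or.inl (by omega))
            rw [hE.cflip, neg_eq_zero] at this
            exact this
  · dsimp only at hyn hj
    subst hj
    obtain ⟨b, hb⟩ : ∃ b, b = -y := ⟨_, rfl⟩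
    have hyb : y = -b := by rw [hb, neg_neg]
    rw [← hb] at hyn
    subst hyb
    dsimp only
    rcases List.mem_append.1 hyn with hbA | hbB
    · rw [rot_negA h hbA]
      have hbp := h.simple_pos hyn
      by_cases hab : a = b
      · subst hab
        constructor
        · intro h1
          rw [map_neg, haa] at h1
          norm_num at h1
        · rintro ⟨h1, -⟩
          have h2 := h1 (Or.inr ⟨rfl, le_rfl⟩)
          dsimp only at h2
          rw [haa] at h2
          norm_num at h2
      · have h4 := h.EAA hE ha hbA hab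
        have h5 := h.EAA hE hbA ha (Ne.symm hab)
        exact ⟨fun _ => ⟨fun _ => h4, fun _ => h5⟩, fun _ => by rw [map_neg, h4, neg_zero]⟩
    · rw [rot_negB h hbB]
      have h4 := h.EAB hE ha hbB
      have hcp := h.cox_negB hbB
      have h6 : E (cox A B (-b)) a = 0 := by rw [hE.cflip, map_neg, h4, neg_zero, neg_zero]
      constructor
      · intro _
        unfold RE DD
        rw [ka, key_pos' h (x := (cox A B (-b), 1)) hcp]
        dsimp only [kle]
        refine ⟨fun h7 => ?_, fun _ => h6⟩
        have hne : a ≠ cox A B (-b) := by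
          intro h8
          rw [← h8, haa] at h6
          norm_num at h6
        exact le_antisymm (sgn' h hE hm hap hcp hne (by omega)) (s1 h hE ha hcp)
      · intro _; rw [map_neg, h4, neg_zero]

/-- invariance, one negative simple root in `B`, the other root positive or in `-B` -/
lemma inv_B (hm : 1 ≤ m) {b : V} (hb : b ∈ B) {y : V × ℕ} (hy : y ∈ AP Φ A B m)
    (hyA : -y.1 ∉ A) :
    RE Φ A B m E (-b, 1) y ↔ RE Φ A B m E (cox A B (-b), 1) (rot Φ A B m y) := by
  rw [RE_B h hE hb hy]
  have hbb := hE.root (h.unitB b hb)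
  have hcp := h.cox_negB hb
  have kc : key Φ A B m (cox A B (-b), 1) = _ := key_pos' h (x := (cox A B (-b), 1)) hcp
  obtain ⟨y, j⟩ := y
  rcases hy with ⟨hyp, hj1, hjm⟩ | ⟨hyn, hj⟩
  · dsimp only at hyp hj1 hjm ⊢
    have hTy := TT_rot h hE hm (x := (y, j)) (Or.inl ⟨hyp, hj1, hjm⟩) hyp
    have h0 : E (cox A B (-b)) y = E y b := by
      rw [hE.cflip, map_neg, neg_neg]
    unfold RE DD
    rw [kc]
    rcases hjm.lt_or_eq with hj | hj
    · rw [rot_lt h hyp hj, key_pos' h (x := (y, j + 1)) hyp]
      dsimp only [kle]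
      constructor
      · intro h1
        exact ⟨fun _ => by rw [h0, h1], fun h2 => by exfalso; omega⟩
      · rintro ⟨h1, -⟩
        rw [← h0]
        exact h1 (Or.inl (by omega))
    · subst hj
      by_cases hyB : y ∈ B
      · rw [rot_B h hyB, key_B h (x := (-y, 1)) (by simpa using hyB)]
        dsimp only [kle]
        constructor
        · intro h1
          refine ⟨fun _ => by rw [map_neg, h0, h1, neg_zero], fun h2 => by exfalso; omega⟩
        · rintro ⟨h1, -⟩
          have := h1 (Or.inl (by omega))
          rw [map_neg, h0, neg_eq_zero] at this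
          exact this
      · rw [rot_top h hyp hyB] at hTy ⊢
        dsimp only
        have h10 : E (cox A B y) (cox A B (-b)) = - E y b := by
          rw [hE.cc, map_neg]
        rcases h.cox_pos hyp hyB with h5 | h5
        · rw [key_pos' h (x := (cox A B y, 1)) h5]
          dsimp only [kle]
          have hcol := TT_col h hE hm hyp (j - 1) j (by omega) le_rfl
          constructor
          · intro h1
            refine ⟨fun h7 => ?_, fun _ => by rw [h10, h1, neg_zero]⟩
            have hne : cox A B (-b) ≠ cox A B y := by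
              intro h8
              have h9 := (cox A B).injective h8
              have h11 := h.not_neg hyp
              rw [← h9, neg_neg] at h11
              exact h11 (h.simple_pos (List.mem_append_right A hb))
            have h12 : y ≠ b := fun h13 => hyB (h13 ▸ hb)
            have h14 := s3 h hE hb hyp h12
            refine le_antisymm (sgn' h hE hm hcp h5 hne (by omega)) ?_
            rw [hE.cc, map_neg, LinearMap.neg_apply]
            linarith
          · rintro ⟨h1, h2⟩
            by_cases h7 : TT Φ A B j (cox A B y, 1) ≤ TT Φ A B j (cox A B (-b), 1)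
            · have := h2 (Or.inr ⟨rfl, h7⟩)
              rw [h10, neg_eq_zero] at this
              exact this
            · have hne : cox A B (-b) ≠ y := by
                intro h8
                rw [h8] at h7
                omega
              have h8 := sgn' h hE hm hcp hyp hne (by omega)
              rw [h0] at h8
              exact le_antisymm h8 (s2 h hE hb hyp)
        · rw [key_A (x := (cox A B y, 1)) h5]
          dsimp only [kle]
          constructor
          · intro h1
            exact ⟨fun h7 => by exfalso; omega, fun _ => by rw [h10, h1, neg_zero]⟩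
          · rintro ⟨-, h2⟩
            have := h2 (Or.inl (by omega))
            rw [h10, neg_eq_zero] at this
            exact this
  · dsimp only at hyn hj hyA
    subst hj
    obtain ⟨d, hd⟩ : ∃ d, d = -y := ⟨_, rfl⟩
    have hyd : y = -d := by rw [hd, neg_neg]
    rw [← hd] at hyn hyA
    subst hyd
    dsimp only
    have hdB : d ∈ B := by
      rcases List.mem_append.1 hyn with h1 | h1
      · exact absurd h1 hyA
      · exact h1
    rw [rot_negB h hdB]
    have h10 : ∀ p q : V, E (cox A B (-p)) (cox A B (-q)) = E p q := by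
      intro p q
      rw [hE.cc, map_neg, map_neg, LinearMap.neg_apply, neg_neg]
    by_cases hdb : d = b
    · subst hdb
      constructor
      · intro h1
        rw [map_neg, LinearMap.neg_apply, hbb] at h1
        norm_num at h1
      · rintro ⟨h1, -⟩
        have h2 := h1 (Or.inr ⟨rfl, le_rfl⟩)
        dsimp only at h2
        rw [h10, hbb] at h2
        norm_num at h2
    · have h4 := h.EBB hE hdB hb hdb
      have h5 := h.EBB hE hb hdB (Ne.symm hdb)
      refine ⟨fun _ => ⟨fun _ => ?_, fun _ => ?_⟩, fun _ => by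
        rw [map_neg, LinearMap.neg_apply, h4, neg_zero]⟩
      · dsimp only
        rw [h10, h5]
      · dsimp only
        rw [h10, h4]

/-- the relation is invariant -/
lemma RE_rot (hm : 1 ≤ m) {x y : V × ℕ} (hx : x ∈ AP Φ A B m) (hy : y ∈ AP Φ A B m) :
    RE Φ A B m E x y ↔ RE Φ A B m E (rot Φ A B m x) (rot Φ A B m y) := by
  -- the case where `x` is in `-A`
  have caseA : ∀ x y : V × ℕ, x ∈ AP Φ A B m → y ∈ AP Φ A B m → -x.1 ∈ A →
      (RE Φ A B m E x y ↔ RE Φ A B m E (rot Φ A B m x) (rot Φ A B m y)) := by
    rintro ⟨x, i⟩ y hx hy hxA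
    have hi : i = 1 := by
      rcases hx with h1 | h1
      · exact absurd (List.mem_append_left B hxA) (not_NS (x := (x, i)) h h1.1)
      · exact h1.2
    subst hi
    obtain ⟨a, ha⟩ : ∃ a, a = -x := ⟨_, rfl⟩
    have hxa : x = -a := by rw [ha, neg_neg]
    subst hxa
    rw [rot_negA h (by simpa using hxA)]
    exact inv_A h hE hm (by simpa using hxA) hy
  have caseB : ∀ x y : V × ℕ, x ∈ AP Φ A B m → y ∈ AP Φ A B m → -x.1 ∈ B → -y.1 ∉ A →
      (RE Φ A B m E x y ↔ RE Φ A B m E (rot Φ A B m x) (rot Φ A B m y)) := by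
    rintro ⟨x, i⟩ y hx hy hxB hyA
    have hi : i = 1 := by
      rcases hx with h1 | h1
      · exact absurd (List.mem_append_right A hxB) (not_NS (x := (x, i)) h h1.1)
      · exact h1.2
    subst hi
    obtain ⟨b, hb⟩ : ∃ b, b = -x := ⟨_, rfl⟩
    have hxb : x = -b := by rw [hb, neg_neg]
    subst hxb
    rw [rot_negB h (by simpa using hxB)]
    exact inv_B h hE hm (by simpa using hxB) hy hyA
  by_cases hxA : -x.1 ∈ A
  · exact caseA x y hx hy hxA
  by_cases hyA : -y.1 ∈ A
  · rw [RE_symm, caseA y x hy hx hyA, RE_symm]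
  by_cases hxB : -x.1 ∈ B
  · exact caseB x y hx hy hxB hyA
  by_cases hyB : -y.1 ∈ B
  · rw [RE_symm, caseB y x hy hx hyB hxA, RE_symm]
  refine inv_pp h hE hm hx hy ?_ ?_
  · rcases hx with h1 | h1
    · exact h1.1
    · rcases List.mem_append.1 h1.1 with h2 | h2
      · exact absurd h2 hxA
      · exact absurd h2 hxB
  · rcases hy with h1 | h1
    · exact h1.1
    · rcases List.mem_append.1 h1.1 with h2 | h2
      · exact absurd h2 hyA
      · exact absurd h2 hyB

/-- the value at the negative simple roots -/
lemma RE_simple (hm : 1 ≤ m) {a : V} (ha : a ∈ A ++ B) {y : V × ℕ} (hy : y ∈ AP Φ A B m) :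
    RE Φ A B m E (-a, 1) y ↔ y.1 ∈ Submodule.span ℝ {b | b ∈ A ++ B ∧ b ≠ a} := by
  have hspan : y.1 ∈ Submodule.span ℝ (insert a {b | b ∈ A ++ B ∧ b ≠ a}) := by
    have h1 : insert a {b | b ∈ A ++ B ∧ b ≠ a} = {b | b ∈ A ++ B} := by
      ext b
      simp only [Set.mem_insert_iff, Set.mem_setOf_eq]
      constructor
      · rintro (rfl | h2)
        · exact ha
        · exact h2.1
      · intro h2
        by_cases h3 : b = a
        · exact Or.inl h3
        · exact Or.inr ⟨h2, h3⟩
    rw [h1, h.span]
    exact Submodule.mem_top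
  obtain ⟨t, z, hz, hyz⟩ := Submodule.mem_span_insert.1 hspan
  rcases List.mem_append.1 ha with hA | hB
  · rw [RE_A h hE hA hy]
    constructor
    · intro h1
      rw [hyz, map_add, map_smul, h.spanA hE hA hz, hE.root (h.unitA a hA), smul_eq_mul,
        add_zero] at h1
      have ht : t = 0 := by linarith
      rw [hyz, ht, zero_smul, zero_add]
      exact hz
    · intro h1
      exact h.spanA hE hA h1
  · rw [RE_B h hE hB hy]
    constructor
    · intro h1
      rw [hyz, map_add, map_smul, LinearMap.add_apply, LinearMap.smul_apply, h.spanB hE hB hz,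
        hE.root (h.unitB a hB), smul_eq_mul, add_zero] at h1
      have ht : t = 0 := by linarith
      rw [hyz, ht, zero_smul, zero_add]
      exact hz
    · intro h1
      exact h.spanB hE hB h1

end

/-- **the compatibility relation exists** -/
theorem compat_exists (hX : S_EEX) (V : Type) [NormedAddCommGroup V] [InnerProductSpace ℝ V]
    (Φ : Set V) (A B : List V) (h : Bip Φ A B) (m : ℕ) (hm : 1 ≤ m) :
    ∃ R : V × ℕ → V × ℕ → Prop, IsCompat Φ A B m R := by
  haveI := h.std.fd
  obtain ⟨E, hE'⟩ := hX V Φ (A ++ B) h.std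
  have hE : IsE (cox A B) E := by
    have : cox A B = pr (A ++ B) := (pr_append A B).symm
    rw [this]; exact hE'
  exact ⟨RE Φ A B m E, ⟨fun x hx y hy => RE_rot h hE hm hx hy,
    fun a ha y hy => RE_simple h hE hm ha hy⟩⟩

/-- it is unique on the coloured almost positive roots -/
theorem compat_unique (hX : S_EEX) (V : Type) [NormedAddCommGroup V] [InnerProductSpace ℝ V]
    (Φ : Set V) (A B : List V) (h : Bip Φ A B) (m : ℕ) (hm : 1 ≤ m)
    (R R' : V × ℕ → V × ℕ → Prop) (hR : IsCompat Φ A B m R) (hR' : IsCompat Φ A B m R') :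
    ∀ x ∈ AP Φ A B m, ∀ y ∈ AP Φ A B m, R x y ↔ R' x y := by
  haveI := h.std.fd
  obtain ⟨E, hE'⟩ := hX V Φ (A ++ B) h.std
  have hE : IsE (cox A B) E := by
    have : cox A B = pr (A ++ B) := (pr_append A B).symm
    rw [this]; exact hE'
  intro x hx y hy
  obtain ⟨k, hk⟩ := h.meets hE hm hx
  have key : ∀ (k : ℕ) (x y : V × ℕ), x ∈ AP Φ A B m → y ∈ AP Φ A B m →
      NS A B ((rot Φ A B m)^[k] x) → (R x y ↔ R' x y) := by
    intro k
    induction k with
    | zero =>
      intro x y hx hy hn
      obtain ⟨x, i⟩ := x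
      have hn' : -x ∈ A ++ B := hn
      have hi : i = 1 := by
        rcases hx with h1 | h1
        · exact absurd hn' (not_NS (x := (x, i)) h h1.1)
        · exact h1.2
      subst hi
      obtain ⟨a, ha⟩ : ∃ a, a = -x := ⟨_, rfl⟩
      have hxa : x = -a := by rw [ha, neg_neg]
      rw [← ha] at hn'
      subst hxa
      rw [hR.simple a hn' y hy, hR'.simple a hn' y hy]
    | succ k ih =>
      intro x y hx hy hn
      rw [hR.rot x hx y hy, hR'.rot x hx y hy]
      refine ih _ _ (rot_mem h hm hx) (rot_mem h hm hy) ?_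
      rwa [← Function.iterate_succ_apply]
  exact key k x y hx hy hk

end Pool.Agent.E8helper78.FL
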