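import Mathlib

/-!
# Cluster parking function complexes: the definitions

`V` is a real inner product space, a finite real reflection group is given by its root system `Φ` of unit
normals to the reflecting hyperplanes.
-/

set_option autoImplicit false

open scoped RealInnerProductSpace NNReal

namespace Pool.Agent.E8helper78.FL

variable {V : Type} [NormedAddCommGroup V] [InnerProductSpace ℝ V]

/-- the reflection in the hyperplane orthogonal to `a` -/
noncomputable def rf (a : V) : V ≃ₗᵢ[ℝ] V := (ℝ ∙ a)ᗮ.reflection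

/-- nonnegative linear combinations of elements of `S` -/
def cone (S : Set V) : Submodule ℝ≥0 V := Submodule.span ℝ≥0 S

/-- a root system of unit vectors: a finite set of unit vectors stable under its reflections -/
structure IsRoots (Φ : Set V) : Prop where
  fin : Φ.Finite
  unit : ∀ a ∈ Φ, ‖a‖ = 1
  refl : ∀ a ∈ Φ, ∀ b ∈ Φ, rf a b ∈ Φ

/-- the reflection group of `Φ` -/
def Wg (Φ : Set V) : Subgroup (V ≃ₗᵢ[ℝ] V) := Subgroup.closure (rf '' Φ)

/-- the product of the reflections in the roots of a list -/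
noncomputable def pr (l : List V) : V ≃ₗᵢ[ℝ] V := (l.map rf).prod

/-- the reflection length -/
noncomputable def ell (Φ : Set V) (w : V ≃ₗᵢ[ℝ] V) : ℕ :=
  sInf {k : ℕ | ∃ l : List V, l.length = k ∧ (∀ a ∈ l, a ∈ Φ) ∧ pr l = w}

/-- A finite real reflection group with root system `Φ`, and a bipartition `A`, `B` of its simple roots
(both listed without repetition) -/
structure Bip (Φ : Set V) (A B : List V) : Prop where
  roots : IsRoots Φ
  nodup : (A ++ B).Nodup
  mem : ∀ a ∈ A ++ B, a ∈ Φ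
  orthA : A.Pairwise (fun a b => ⟪a, b⟫ = 0)
  orthB : B.Pairwise (fun a b => ⟪a, b⟫ = 0)
  indep : LinearIndependent ℝ (fun a : {a // a ∈ A ++ B} => (a : V))
  span : Submodule.span ℝ {a | a ∈ A ++ B} = ⊤
  pos : ∀ a ∈ Φ, a ∈ cone {a | a ∈ A ++ B} ∨ -a ∈ cone {a | a ∈ A ++ B}

variable (Φ : Set V) (A B : List V)

/-- the positive roots -/
def Pos : Set V := {a | a ∈ Φ ∧ a ∈ cone {a | a ∈ A ++ B}}

/-- the bipartite Coxeter element -/
noncomputable def cox : V ≃ₗᵢ[ℝ] V := pr A * pr B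

/-- noncrossing partitions: the interval below the Coxeter element in the absolute order -/
def NC : Set (V ≃ₗᵢ[ℝ] V) :=
  {w | w ∈ Wg Φ ∧ ell Φ w + ell Φ (w⁻¹ * cox A B) = ell Φ (cox A B)}

/-- the parabolic subgroup fixing the fixed space of `p` pointwise -/
def Wp (p : V ≃ₗᵢ[ℝ] V) : Subgroup (V ≃ₗᵢ[ℝ] V) where
  carrier := {w | w ∈ Wg Φ ∧ ∀ v, p v = v → w v = v}
  mul_mem' := by
    rintro x y ⟨hx, hx'⟩ ⟨hy, hy'⟩
    exact ⟨mul_mem hx hy, fun v hv => by
      show x (y v) = v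
      rw [hy' v hv, hx' v hv]⟩
  one_mem' := ⟨one_mem _, fun v _ => rfl⟩
  inv_mem' := by
    rintro x ⟨hx, hx'⟩
    refine ⟨inv_mem hx, fun v hv => ?_⟩
    have h := hx' v hv
    have h2 : x⁻¹ (x v) = v := x.symm_apply_apply v
    rwa [h] at h2

/-- the `m`-coloured almost positive roots -/
def AP (m : ℕ) : Set (V × ℕ) :=
  {x | (x.1 ∈ Pos Φ A B ∧ 1 ≤ x.2 ∧ x.2 ≤ m) ∨ (-x.1 ∈ A ++ B ∧ x.2 = 1)}

open Classical in
/-- the rotation: `α^i ↦ α^(i+1)` for `α` positive and `i < m`; otherwise `-α^1` for a root `α` in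
`-Π_•` or in `Π_∘`, and `(c α)^1` in the remaining cases -/
noncomputable def rot (m : ℕ) (x : V × ℕ) : V × ℕ :=
  if x.1 ∈ Pos Φ A B ∧ x.2 < m then (x.1, x.2 + 1)
  else if -x.1 ∈ A ∨ x.1 ∈ B then (-x.1, 1)
  else (cox A B x.1, 1)

/-- the compatibility relation of Fomin and Reading: it is invariant under the rotation, and the negative
simple root `-a` is compatible with the coloured roots whose expansion in simple roots does not involve
`a` -/
structure IsCompat (m : ℕ) (R : V × ℕ → V × ℕ → Prop) : Prop where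
  rot : ∀ x ∈ AP Φ A B m, ∀ y ∈ AP Φ A B m, R x y ↔ R (rot Φ A B m x) (rot Φ A B m y)
  simple : ∀ a ∈ A ++ B, ∀ y ∈ AP Φ A B m,
    R (-a, 1) y ↔ y.1 ∈ Submodule.span ℝ {b | b ∈ A ++ B ∧ b ≠ a}

/-- the faces of the generalized cluster complex: the flag complex of the compatibility relation -/
def Face (m : ℕ) (R : V × ℕ → V × ℕ → Prop) : Set (Finset (V × ℕ)) :=
  {f | (∀ x ∈ f, x ∈ AP Φ A B m) ∧ ∀ x ∈ f, ∀ y ∈ f, x ≠ y → R x y}

/-- the faces of the positive part -/
def FaceP (m : ℕ) (R : V × ℕ → V × ℕ → Prop) : Set (Finset (V × ℕ)) :=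
  {f | f ∈ Face Φ A B m R ∧ ∀ x ∈ f, x.1 ∈ Pos Φ A B}

/-- `l` lists the elements of `f`, and the product of the reflections in this order is a reduced
factorization of a noncrossing partition -/
structure Listing (f : Finset (V × ℕ)) (l : List (V × ℕ)) : Prop where
  nodup : l.Nodup
  mem : ∀ x, x ∈ l ↔ x ∈ f
  nc : pr (l.map Prod.fst) ∈ NC Φ A B
  red : ell Φ (pr (l.map Prod.fst)) = l.length

/-- `c_• (∏ f) c_∘` -/
noncomputable def und (l : List (V × ℕ)) : V ≃ₗᵢ[ℝ] V := pr A * pr (l.map Prod.fst) * pr B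

/-- The poset of cluster parking functions, `F` being the set of faces of the cluster complex and `L` a
choice of the listings: pairs of a left coset of `W_{c_• (∏ f) c_∘}` and the face `f` -/
def CPF (F : Set (Finset (V × ℕ))) (L : Finset (V × ℕ) → List (V × ℕ)) :
    Set (Set (V ≃ₗᵢ[ℝ] V) × Finset (V × ℕ)) :=
  {z | z.2 ∈ F ∧ ∃ w ∈ Wg Φ, z.1 = (fun g => w * g) '' (Wp Φ (und A B (L z.2)) : Set (V ≃ₗᵢ[ℝ] V))}

/-- the order -/
def le (x y : Set (V ≃ₗᵢ[ℝ] V) × Finset (V × ℕ)) : Prop := x.2 ⊆ y.2 ∧ y.1 ⊆ x.1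

/-- the vertices: the elements of rank one -/
def verts (Q : Set (Set (V ≃ₗᵢ[ℝ] V) × Finset (V × ℕ))) :
    Set (Set (V ≃ₗᵢ[ℝ] V) × Finset (V × ℕ)) := {x | x ∈ Q ∧ x.2.card = 1}

/-- the simplicial complex of the poset `Q`: a set of vertices is a face if it is the set of all the
vertices below some element -/
def IsFace (Q : Set (Set (V ≃ₗᵢ[ℝ] V) × Finset (V × ℕ)))
    (X : Set (Set (V ≃ₗᵢ[ℝ] V) × Finset (V × ℕ))) : Prop :=
  ∃ z ∈ Q, X = {x | x ∈ verts Q ∧ le x z}

/-- the complex is flag -/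
def IsFlag (Q : Set (Set (V ≃ₗᵢ[ℝ] V) × Finset (V × ℕ))) : Prop :=
  ∀ X ⊆ verts Q, (∀ x ∈ X, ∀ y ∈ X, x ≠ y → IsFace Q {x, y}) → IsFace Q X

end Pool.Agent.E8helper78.FL
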