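import Pool.Agent.E8helper78.FL.Stm2

/-!
# Simple roots: dual vectors, the form on simple roots
-/

set_option autoImplicit false

open scoped RealInnerProductSpace NNReal

namespace Pool.Agent.E8helper78.FL

section

variable {V : Type} [NormedAddCommGroup V] [InnerProductSpace ℝ V]

lemma Bip.std {Φ : Set V} {A B : List V} (h : Bip Φ A B) : Std Φ (A ++ B) :=
  ⟨h.roots, h.nodup, h.mem, h.indep, h.span, h.pos⟩

lemma Std.fd {Φ : Set V} {L : List V} (h : Std Φ L) : FiniteDimensional ℝ V := by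
  have hf : {a | a ∈ L}.Finite := List.finite_toSet L
  have h1 : (⊤ : Submodule ℝ V).FG := by
    rw [← h.span]
    exact Submodule.fg_span hf
  exact ⟨h1⟩

/-- dual vectors -/
lemma Std.dual {Φ : Set V} {L : List V} (h : Std Φ L) :
    ∃ o : V → V, (∀ a ∈ L, ∀ b ∈ L, a ≠ b → ⟪o a, b⟫ = 0) ∧ (∀ a ∈ L, ⟪o a, a⟫ = 1) ∧
      ∀ x, (∀ a ∈ L, ⟪o a, x⟫ = 0) → x = 0 := by
  classical
  haveI := h.fd
  have hsp : ⊤ ≤ Submodule.span ℝ (Set.range fun a : {a // a ∈ L} => (a : V)) := by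
    rw [← h.span]
    apply Submodule.span_mono
    intro a ha
    exact ⟨⟨a, ha⟩, rfl⟩
  let bs := Module.Basis.mk h.indep hsp
  have hbs : ∀ a : {a // a ∈ L}, bs a = (a : V) := fun a => Module.Basis.mk_apply _ _ a
  let o : V → V := fun a => if ha : a ∈ L then
    (InnerProductSpace.toDual ℝ V).symm (LinearMap.toContinuousLinearMap (bs.coord ⟨a, ha⟩)) else 0
  have ho : ∀ (a : V) (ha : a ∈ L) (x : V), ⟪o a, x⟫ = bs.coord ⟨a, ha⟩ x := by
    intro a ha x
    simp only [o, dif_pos ha]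
    rw [InnerProductSpace.toDual_symm_apply]
    rfl
  refine ⟨o, ?_, ?_, ?_⟩
  · intro a ha b hb hab
    rw [ho a ha]
    have : (b : V) = bs ⟨b, hb⟩ := (hbs ⟨b, hb⟩).symm
    rw [this, Module.Basis.coord_apply, Module.Basis.repr_self, Finsupp.single_apply, if_neg]
    intro h1
    exact hab (congrArg Subtype.val h1).symm
  · intro a ha
    rw [ho a ha]
    have h2 : bs.coord ⟨a, ha⟩ (bs ⟨a, ha⟩) = 1 := by
      rw [Module.Basis.coord_apply, Module.Basis.repr_self, Finsupp.single_apply, if_pos rfl]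
    rwa [hbs] at h2
  · intro x hx
    apply bs.ext_elem
    intro i
    rw [map_zero, Finsupp.zero_apply]
    have := hx i.1 i.2
    rw [ho i.1 i.2] at this
    exact this

lemma pr_fix {L : List V} {x : V} (hL : ∀ b ∈ L, ‖b‖ = 1) (h : ∀ b ∈ L, ⟪b, x⟫ = 0) :
    pr L x = x := by
  induction L with
  | nil => rfl
  | cons b L ih =>
    rw [pr_cons_apply, ih (fun d hd => hL d (by simp [hd])) (fun d hd => h d (by simp [hd]))]
    exact rf_fix (hL b (by simp)) (h b (by simp))

/-- a product of reflections in orthogonal roots, on a vector orthogonal to all of them but one -/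
lemma pr_orth {L : List V} (ho : L.Pairwise (fun a b => ⟪a, b⟫ = 0)) (hL : ∀ b ∈ L, ‖b‖ = 1)
    (hn : L.Nodup) {d : V} (hd : d ∈ L) {x : V} (h : ∀ b ∈ L, b ≠ d → ⟪b, x⟫ = 0) :
    pr L x = x - (2 * ⟪d, x⟫) • d := by
  induction L with
  | nil => simp at hd
  | cons b L ih =>
    rw [List.pairwise_cons] at ho
    rw [List.nodup_cons] at hn
    rw [pr_cons_apply]
    rcases List.mem_cons.1 hd with rfl | hd'
    · rw [pr_fix (fun e he => hL e (by simp [he]))
        (fun e he => h e (by simp [he]) (fun h1 => hn.1 (h1 ▸ he)))]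
      exact rf_apply (hL _ (by simp)) x
    · rw [ih ho.2 (fun e he => hL e (by simp [he])) hn.2 hd'
        (fun e he hne => h e (by simp [he]) hne)]
      apply rf_fix (hL b (by simp))
      rw [inner_sub_right, inner_smul_right, ho.1 d hd',
        h b (by simp) (fun h1 => hn.1 (h1 ▸ hd'))]
      simp

section bip

variable {Φ : Set V} {A B : List V} (h : Bip Φ A B) {E : V →ₗ[ℝ] V →ₗ[ℝ] ℝ}
  (hE : IsE (cox A B) E)
include h

lemma Bip.unitA : ∀ b ∈ A, ‖b‖ = 1 := fun b hb =>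
  h.roots.unit b (h.mem b (List.mem_append_left _ hb))

lemma Bip.unitB : ∀ b ∈ B, ‖b‖ = 1 := fun b hb =>
  h.roots.unit b (h.mem b (List.mem_append_right _ hb))

lemma Bip.disj {a : V} (ha : a ∈ A) (hb : a ∈ B) : False :=
  (List.nodup_append.1 h.nodup).2.2 a ha a hb rfl

lemma Bip.nodupA : A.Nodup := (List.nodup_append.1 h.nodup).1

lemma Bip.nodupB : B.Nodup := (List.nodup_append.1 h.nodup).2.1

include hE

lemma Bip.EA {d : V} (hd : d ∈ A) {b : V} (hb : b ∈ A ++ B) (hne : b ≠ d) : E d b = 0 := by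
  obtain ⟨o, ho1, ho2, -⟩ := h.std.dual
  have hdL : d ∈ A ++ B := List.mem_append_left _ hd
  set x : V := (1 / 2 : ℝ) • o d with hx
  have hx0 : ∀ e ∈ A ++ B, e ≠ d → ⟪e, x⟫ = 0 := by
    intro e he hed
    rw [hx, inner_smul_right, real_inner_comm, ho1 d hdL e he (Ne.symm hed), mul_zero]
  have hx1 : ⟪d, x⟫ = 1 / 2 := by
    rw [hx, inner_smul_right, real_inner_comm, ho2 d hdL, mul_one]
  have hc : cox A B x = x - d := by
    show pr A (pr B x) = x - d
    rw [pr_fix h.unitB (fun e he => hx0 e (List.mem_append_right _ he)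
      (fun h1 => h.disj hd (h1 ▸ he))),
      pr_orth h.orthA h.unitA h.nodupA hd (fun e he hed => hx0 e (List.mem_append_left _ he) hed), hx1]
    norm_num
  have h2 := hE x b
  rw [hc] at h2
  have h3 : x - (x - d) = d := by abel
  rw [h3] at h2
  rw [h2, real_inner_comm]
  exact hx0 b hb hne

lemma Bip.EB [FiniteDimensional ℝ V] {d : V} (hd : d ∈ B) {b : V} (hb : b ∈ A ++ B)
    (hne : b ≠ d) : E b d = 0 := by
  obtain ⟨o, ho1, ho2, -⟩ := h.std.dual
  have hdL : d ∈ A ++ B := List.mem_append_right _ hd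
  set x : V := (1 / 2 : ℝ) • o d with hx
  have hx0 : ∀ e ∈ A ++ B, e ≠ d → ⟪e, x⟫ = 0 := by
    intro e he hed
    rw [hx, inner_smul_right, real_inner_comm, ho1 d hdL e he (Ne.symm hed), mul_zero]
  have hx1 : ⟪d, x⟫ = 1 / 2 := by
    rw [hx, inner_smul_right, real_inner_comm, ho2 d hdL, mul_one]
  have hdd : ⟪d, d⟫ = 1 := by
    rw [real_inner_self_eq_norm_sq, h.unitB d hd]; norm_num
  have hB0 : ∀ e ∈ B, e ≠ d → ⟪e, x - d⟫ = 0 := by
    intro e he hed
    have h1 : ⟪e, d⟫ = 0 := by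
      have := h.orthB
      rcases List.pairwise_iff_getElem.1 this with h2
      obtain ⟨i, hi, rfl⟩ := List.getElem_of_mem he
      obtain ⟨j, hj, rfl⟩ := List.getElem_of_mem hd
      rcases lt_trichotomy i j with h3 | h3 | h3
      · exact h2 i j hi hj h3
      · subst h3; exact absurd rfl hed
      · rw [real_inner_comm]; exact h2 j i hj hi h3
    rw [inner_sub_right, hx0 e (List.mem_append_right _ he) hed, h1, sub_zero]
  have hc : cox A B (x - d) = x := by
    show pr A (pr B (x - d)) = x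
    rw [pr_orth h.orthB h.unitB h.nodupB hd hB0, inner_sub_right, hx1, hdd]
    have : x - d - (2 * (1 / 2 - 1 : ℝ)) • d = x := by norm_num
    rw [this]
    exact pr_fix h.unitA (fun e he => hx0 e (List.mem_append_left _ he)
      (fun h1 => h.disj (h1 ▸ he) hd))
  obtain ⟨u, rfl⟩ := hE.surj b
  rw [hE]
  have h1 : ⟪u, d⟫ = ⟪u, x⟫ - ⟪u, x - d⟫ := by rw [inner_sub_right]; ring
  have h2 : ⟪u, x - d⟫ = ⟪cox A B u, x⟫ := by
    rw [← (cox A B).inner_map_map u (x - d), hc]
  rw [h1, h2, ← inner_sub_left]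
  exact hx0 _ hb hne

end bip

section inv

variable {c : V ≃ₗᵢ[ℝ] V} {E : V →ₗ[ℝ] V →ₗ[ℝ] ℝ} (hE : IsE c E) [FiniteDimensional ℝ V]
include hE

lemma IsE.cc (x y : V) : E (c x) (c y) = E x y := by
  obtain ⟨u, rfl⟩ := hE.surj x
  rw [map_sub, hE, hE, c.inner_map_map]

lemma IsE.cflip (x y : V) : E (c y) x = - E x y := by
  have h1 := hE.add x y
  obtain ⟨u, rfl⟩ := hE.surj y
  rw [map_sub, hE]
  rw [hE u x, inner_sub_right, real_inner_comm u x] at h1
  rw [real_inner_comm x (c u)]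
  linarith

end inv

end

end Pool.Agent.E8helper78.FL
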