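import Pool.Agent.E8helper78.FL.Rota

/-!
# The listings exist
-/

set_option autoImplicit false

open scoped RealInnerProductSpace NNReal

namespace Pool.Agent.E8helper78.FL

section

variable {V : Type} [NormedAddCommGroup V] [InnerProductSpace ℝ V]
variable (Φ : Set V) (A B : List V) (m : ℕ)

open Classical in
/-- the number of rotations to a negative simple root -/
noncomputable def KK (x : V × ℕ) : ℕ := sInf {k | NS A B ((rot Φ A B m)^[k] x)}

open Classical in
/-- which part the negative simple root is in -/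
noncomputable def ee (x : V × ℕ) : ℕ :=
  if -((rot Φ A B m)^[KK Φ A B m x] x).1 ∈ A then 1 else 0

open Classical in
/-- the key -/
noncomputable def key (x : V × ℕ) : ℕ × ℕ :=
  if -x.1 ∈ A then (0, 0) else if -x.1 ∈ B then (m + 1, 0) else
    (x.2, 2 * KK Φ A B m x + ee Φ A B m x)

/-- the order of the keys -/
def kle (p q : ℕ × ℕ) : Prop := p.1 < q.1 ∨ (p.1 = q.1 ∧ p.2 ≤ q.2)

variable {Φ A B m}

lemma KK_zero {x : V × ℕ} (hx : NS A B x) : KK Φ A B m x = 0 := by
  unfold KK
  exact Nat.sInf_eq_zero.2 (Or.inl hx)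

lemma KK_succ {x : V × ℕ} (hx : ¬ NS A B x) (hex : ∃ k, NS A B ((rot Φ A B m)^[k] x)) :
    KK Φ A B m x = KK Φ A B m (rot Φ A B m x) + 1 := by
  unfold KK
  have h1 : {k | NS A B ((rot Φ A B m)^[k] x)}.Nonempty := hex
  have h2 : {k | NS A B ((rot Φ A B m)^[k] (rot Φ A B m x))}.Nonempty := by
    obtain ⟨k, hk⟩ := hex
    cases k with
    | zero => exact absurd hk hx
    | succ k => exact ⟨k, by rwa [Set.mem_setOf_eq, ← Function.iterate_succ_apply]⟩
  apply le_antisymm
  · apply Nat.sInf_le
    have := Nat.sInf_mem h2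
    rw [Set.mem_setOf_eq, Function.iterate_succ_apply]
    exact this
  · have h3 := Nat.sInf_mem h1
    have h4 : sInf {k | NS A B ((rot Φ A B m)^[k] x)} ≠ 0 := by
      intro h0
      rw [h0] at h3
      exact hx h3
    obtain ⟨k, hk⟩ := Nat.exists_eq_succ_of_ne_zero h4
    rw [hk] at h3 ⊢
    apply Nat.succ_le_succ
    apply Nat.sInf_le
    rw [Set.mem_setOf_eq, ← Function.iterate_succ_apply]
    exact h3

lemma ee_rot {x : V × ℕ} (hx : ¬ NS A B x) (hex : ∃ k, NS A B ((rot Φ A B m)^[k] x)) :
    ee Φ A B m x = ee Φ A B m (rot Φ A B m x) := by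
  unfold ee
  rw [KK_succ hx hex, Function.iterate_succ_apply]

lemma ee_le (x : V × ℕ) : ee Φ A B m x ≤ 1 := by
  unfold ee
  split_ifs <;> simp

lemma key_A {x : V × ℕ} (hx : -x.1 ∈ A) : key Φ A B m x = (0, 0) := by
  unfold key
  rw [if_pos hx]

variable (h : Bip Φ A B)
include h

lemma key_B {x : V × ℕ} (hx : -x.1 ∈ B) : key Φ A B m x = (m + 1, 0) := by
  unfold key
  rw [if_neg (fun h1 => h.disj h1 hx), if_pos hx]

lemma key_pos {x : V × ℕ} (hx : x.1 ∈ Pos Φ A B) :
    key Φ A B m x = (x.2, 2 * KK Φ A B m x + ee Φ A B m x) := by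
  have h0 : ∀ a ∈ A ++ B, -x.1 ≠ a := by
    intro a ha h1
    have h2 := h.not_neg hx
    rw [h1] at h2
    exact h2 (h.simple_pos ha)
  unfold key
  rw [if_neg (fun h1 => h0 _ (List.mem_append_left _ h1) rfl),
    if_neg (fun h1 => h0 _ (List.mem_append_right _ h1) rfl)]

lemma not_NS {x : V × ℕ} (hx : x.1 ∈ Pos Φ A B) : ¬ NS A B x := by
  intro h1
  exact h.not_neg hx (h.simple_pos h1)

variable {E : V →ₗ[ℝ] V →ₗ[ℝ] ℝ} (hE : IsE (cox A B) E) [FiniteDimensional ℝ V]
include hE

lemma Bip.spanA {d : V} (hd : d ∈ A) {y : V}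
    (hy : y ∈ Submodule.span ℝ {b | b ∈ A ++ B ∧ b ≠ d}) : E d y = 0 := by
  induction hy using Submodule.span_induction with
  | mem b hb => exact h.EA hE hd hb.1 hb.2
  | zero => exact map_zero _
  | add y z _ _ h1 h2 => rw [map_add, h1, h2, add_zero]
  | smul t y _ h1 => rw [map_smul, h1, smul_zero]

lemma Bip.spanB {d : V} (hd : d ∈ B) {y : V}
    (hy : y ∈ Submodule.span ℝ {b | b ∈ A ++ B ∧ b ≠ d}) : E y d = 0 := by
  induction hy using Submodule.span_induction with
  | mem b hb => exact h.EB hE hd hb.1 hb.2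
  | zero => rw [map_zero, LinearMap.zero_apply]
  | add y z _ _ h1 h2 => rw [map_add, LinearMap.add_apply, h1, h2, add_zero]
  | smul t y _ h1 => rw [map_smul, LinearMap.smul_apply, h1, smul_zero]

/-- the first case: `x` is negative simple -/
lemma base {R : V × ℕ → V × ℕ → Prop} (hR : IsCompat Φ A B m R) {x y : V × ℕ}
    (hx : x ∈ AP Φ A B m) (hy : y ∈ AP Φ A B m) (hxy : R x y) (hn : NS A B x) :
    (kle (key Φ A B m x) (key Φ A B m y) → E x.1 y.1 = 0) ∧
      (kle (key Φ A B m y) (key Φ A B m x) → E y.1 x.1 = 0) := by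
  obtain ⟨x, i⟩ := x
  have hi : i = 1 := by
    rcases hx with ⟨h1, -⟩ | ⟨-, h2⟩
    · exact absurd hn (not_NS h h1)
    · exact h2
  subst hi
  obtain ⟨d, hd⟩ : ∃ d, d = -x := ⟨_, rfl⟩
  have hxd : x = -d := by rw [hd, neg_neg]
  subst hxd
  have hdm : d ∈ A ++ B := by
    have : - -d ∈ A ++ B := hn
    rwa [neg_neg] at this
  have hsp := (hR.simple d hdm y hy).1 hxy
  dsimp only
  rcases List.mem_append.1 hdm with hA | hB
  · have h1 : E d y.1 = 0 := h.spanA hE hA hsp
    refine ⟨fun _ => by rw [map_neg, LinearMap.neg_apply, h1, neg_zero], fun hk => ?_⟩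
    rw [key_A (x := (-d, 1)) (by simpa using hA)] at hk
    have hyA : -y.1 ∈ A := by
      rcases hy with ⟨h2, h3, -⟩ | ⟨h2, -⟩
      · rw [key_pos h h2] at hk
        rcases hk with hk | ⟨hk, -⟩
        · exact absurd hk (Nat.not_lt_zero _)
        · dsimp only at hk; omega
      · rcases List.mem_append.1 h2 with h3 | h3
        · exact h3
        · rw [key_B h h3] at hk
          rcases hk with hk | ⟨hk, -⟩
          · exact absurd hk (Nat.not_lt_zero _)
          · dsimp only at hk; omega
    obtain ⟨b, hb⟩ : ∃ b, b = -y.1 := ⟨_, rfl⟩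
    have hyb : y.1 = -b := by rw [hb, neg_neg]
    rw [← hb] at hyA
    rw [hyb] at h1 ⊢
    have hdb : d ≠ b := by
      rintro rfl
      rw [map_neg, hE.root (h.unitA d hA)] at h1
      norm_num at h1
    rw [map_neg, map_neg, LinearMap.neg_apply, neg_neg]
    exact h.EA hE hyA hdm hdb
  · have h1 : E y.1 d = 0 := h.spanB hE hB hsp
    refine ⟨fun hk => ?_, fun _ => by rw [map_neg, h1, neg_zero]⟩
    rw [key_B h (x := (-d, 1)) (by simpa using hB)] at hk
    have hyB : -y.1 ∈ B := by
      rcases hy with ⟨h2, h3, h4⟩ | ⟨h2, -⟩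
      · rw [key_pos h h2] at hk
        rcases hk with hk | ⟨hk, -⟩
        · dsimp only at hk; omega
        · dsimp only at hk; omega
      · rcases List.mem_append.1 h2 with h3 | h3
        · rw [key_A h3] at hk
          rcases hk with hk | ⟨hk, -⟩
          · exact absurd hk (Nat.not_lt_zero _)
          · dsimp only at hk; omega
        · exact h3
    obtain ⟨b, hb⟩ : ∃ b, b = -y.1 := ⟨_, rfl⟩
    have hyb : y.1 = -b := by rw [hb, neg_neg]
    rw [← hb] at hyB
    rw [hyb] at h1 ⊢
    have hdb : d ≠ b := by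
      rintro rfl
      rw [map_neg, LinearMap.neg_apply, hE.root (h.unitB d hB)] at h1
      norm_num at h1
    rw [map_neg, map_neg, LinearMap.neg_apply, neg_neg]
    exact h.EB hE hyB hdm hdb

/-- the rotation step -/
lemma step (hm : 1 ≤ m) {x y : V × ℕ} (hx : x ∈ AP Φ A B m) (hy : y ∈ AP Φ A B m)
    (hxn : ¬ NS A B x) (hyn : ¬ NS A B y)
    (h1 : kle (key Φ A B m (rot Φ A B m x)) (key Φ A B m (rot Φ A B m y)) →
      E (rot Φ A B m x).1 (rot Φ A B m y).1 = 0)
    (h2 : kle (key Φ A B m (rot Φ A B m y)) (key Φ A B m (rot Φ A B m x)) →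
      E (rot Φ A B m y).1 (rot Φ A B m x).1 = 0)
    (hk : kle (key Φ A B m x) (key Φ A B m y)) : E x.1 y.1 = 0 := by
  have hmx := h.meets hE hm hx
  have hmy := h.meets hE hm hy
  have hKx := KK_succ hxn hmx
  have hKy := KK_succ hyn hmy
  have hex := ee_rot hxn hmx
  have hey := ee_rot hyn hmy
  have hex1 := ee_le (Φ := Φ) (A := A) (B := B) (m := m) x
  have hey1 := ee_le (Φ := Φ) (A := A) (B := B) (m := m) y
  obtain ⟨x, i⟩ := x
  obtain ⟨y, j⟩ := y
  obtain ⟨hxp, hi1, him⟩ : x ∈ Pos Φ A B ∧ 1 ≤ i ∧ i ≤ m := by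
    rcases hx with h3 | h3
    · exact h3
    · exact absurd h3.1 hxn
  obtain ⟨hyp, hj1, hjm⟩ : y ∈ Pos Φ A B ∧ 1 ≤ j ∧ j ≤ m := by
    rcases hy with h3 | h3
    · exact h3
    · exact absurd h3.1 hyn
  rw [key_pos h (x := (x, i)) hxp, key_pos h (x := (y, j)) hyp] at hk
  -- the value of `ee` at negative simple roots
  have heA : ∀ z : V × ℕ, -z.1 ∈ A → ee Φ A B m z = 1 ∧ KK Φ A B m z = 0 := by
    intro z hz
    have h3 : KK Φ A B m z = 0 := KK_zero (List.mem_append_left _ hz)
    refine ⟨?_, h3⟩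
    unfold ee
    rw [h3, Function.iterate_zero, id, if_pos hz]
  have heB : ∀ z : V × ℕ, -z.1 ∈ B → ee Φ A B m z = 0 ∧ KK Φ A B m z = 0 := by
    intro z hz
    have h3 : KK Φ A B m z = 0 := KK_zero (List.mem_append_right _ hz)
    refine ⟨?_, h3⟩
    unfold ee
    rw [h3, Function.iterate_zero, id, if_neg (fun h4 => h.disj h4 hz)]
  have hepos : ∀ z : V × ℕ, z.1 ∈ Pos Φ A B → z ∈ AP Φ A B m → 1 ≤ KK Φ A B m z := by
    intro z hz hz2
    rw [KK_succ (not_NS h hz) (h.meets hE hm hz2)]
    omega
  dsimp only [kle] at hk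
  rcases him.lt_or_eq with hi | hi
  · -- `x` has a smaller colour
    rw [rot_lt h hxp hi] at h1 h2 hKx hex
    have kx : key Φ A B m (x, i + 1) = _ := key_pos h (x := (x, i + 1)) hxp
    rw [kx] at h1 h2
    rcases hjm.lt_or_eq with hj | hj
    · rw [rot_lt h hyp hj] at h1 h2 hKy hey
      rw [key_pos h (x := (y, j + 1)) hyp] at h1 h2
      apply h1
      dsimp only [kle]
      omega
    · subst hj
      by_cases hyB : y ∈ B
      · rw [rot_B h hyB] at h1
        rw [key_B h (x := (-y, 1)) (by simpa using hyB)] at h1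
        have h3 := h1 (Or.inl (by dsimp only; omega))
        dsimp only at h3
        rw [map_neg, neg_eq_zero] at h3
        exact h3
      · rw [rot_top h hyp hyB] at h2
        have h3 : E (cox A B y) x = 0 := by
          apply h2
          rcases h.cox_pos hyp hyB with h4 | h4
          · rw [key_pos h (x := (cox A B y, 1)) h4]
            left; dsimp only; omega
          · rw [key_A (x := (cox A B y, 1)) h4]
            left; dsimp only; omega
        rw [hE.cflip, neg_eq_zero] at h3
        exact h3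
  · subst hi
    have hj : j = i := by omega
    subst hj
    by_cases hxB : x ∈ B
    · rw [rot_B h hxB] at h1 h2
      by_cases hyB : y ∈ B
      · rw [rot_B h hyB] at h1
        rw [key_B h (x := (-x, 1)) (by simpa using hxB),
          key_B h (x := (-y, 1)) (by simpa using hyB)] at h1
        have h3 := h1 (Or.inr ⟨rfl, le_rfl⟩)
        dsimp only at h3
        rw [map_neg, map_neg, LinearMap.neg_apply, neg_neg] at h3
        exact h3
      · rw [rot_top h hyp hyB, key_B h (x := (-x, 1)) (by simpa using hxB)] at h2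
        have h3 : E (cox A B y) (-x) = 0 := by
          apply h2
          rcases h.cox_pos hyp hyB with h4 | h4
          · rw [key_pos h (x := (cox A B y, 1)) h4]
            left; dsimp only; omega
          · rw [key_A (x := (cox A B y, 1)) h4]
            left; dsimp only; omega
        rw [map_neg, hE.cflip, neg_neg] at h3
        exact h3
    · rw [rot_top h hxp hxB] at h1 h2 hKx hex
      by_cases hyB : y ∈ B
      · -- impossible
        exfalso
        rw [rot_B h hyB] at hKy hey
        obtain ⟨h3, h4⟩ := heB (-y, 1) (by simpa using hyB)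
        rcases h.cox_pos hxp hxB with h5 | h5
        · have h6 := hepos (cox A B x, 1) h5 (Or.inl ⟨h5, le_rfl, hm⟩)
          omega
        · obtain ⟨h6, h7⟩ := heA (cox A B x, 1) h5
          omega
      · rw [rot_top h hyp hyB] at h1 h2 hKy hey
        have h3 : E (cox A B x) (cox A B y) = 0 := by
          apply h1
          rcases h.cox_pos hxp hxB with h5 | h5
          · rcases h.cox_pos hyp hyB with h6 | h6
            · rw [key_pos h (x := (cox A B x, 1)) h5, key_pos h (x := (cox A B y, 1)) h6]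
              dsimp only [kle]
              omega
            · exfalso
              obtain ⟨h7, h8⟩ := heA (cox A B y, 1) h6
              have h9 := hepos (cox A B x, 1) h5 (Or.inl ⟨h5, le_rfl, hm⟩)
              omega
          · rw [key_A (x := (cox A B x, 1)) h5]
            rcases h.cox_pos hyp hyB with h6 | h6
            · rw [key_pos h (x := (cox A B y, 1)) h6]
              left; dsimp only; omega
            · rw [key_A (x := (cox A B y, 1)) h6]
              exact Or.inr ⟨rfl, le_rfl⟩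
        rw [hE.cc] at h3
        exact h3

/-- compatible roots are orthogonal for the form in the order of the keys -/
lemma pair (hm : 1 ≤ m) {R : V × ℕ → V × ℕ → Prop} (hR : IsCompat Φ A B m R) :
    ∀ (k : ℕ) (x y : V × ℕ), x ∈ AP Φ A B m → y ∈ AP Φ A B m → R x y → R y x →
      KK Φ A B m x = k →
      (kle (key Φ A B m x) (key Φ A B m y) → E x.1 y.1 = 0) ∧
        (kle (key Φ A B m y) (key Φ A B m x) → E y.1 x.1 = 0) := by
  intro k
  induction k with
  | zero =>
    intro x y hx hy hxy hyx hk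
    by_cases hn : NS A B x
    · exact base h hE hR hx hy hxy hn
    · rw [KK_succ hn (h.meets hE hm hx)] at hk
      exact absurd hk (Nat.succ_ne_zero _)
  | succ k ih =>
    intro x y hx hy hxy hyx hk
    have hxn : ¬ NS A B x := by
      intro hn
      rw [KK_zero hn] at hk
      exact absurd hk.symm (Nat.succ_ne_zero _)
    by_cases hyn : NS A B y
    · have := base h hE hR hy hx hyx hyn
      exact ⟨this.2, this.1⟩
    · have hk' : KK Φ A B m (rot Φ A B m x) = k := by
        have := KK_succ hxn (h.meets hE hm hx)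
        omega
      have := ih (rot Φ A B m x) (rot Φ A B m y) (rot_mem h hm hx) (rot_mem h hm hy)
        ((hR.rot x hx y hy).1 hxy) ((hR.rot y hy x hx).1 hyx) hk'
      exact ⟨step h hE hm hx hy hxn hyn this.1 this.2, step h hE hm hy hx hyn hxn this.2 this.1⟩

end

/-- **LIST** -/
theorem t_LIST (hX : S_EEX) (hL : S_LNC) : S_LIST := by
  classical
  intro V _ _ Φ A B h m hm R hR f hf
  haveI := h.std.fd
  obtain ⟨E, hE'⟩ := hX V Φ (A ++ B) h.std
  have hE : IsE (cox A B) E := by
    have : cox A B = pr (A ++ B) := (pr_append A B).symm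
    rw [this]; exact hE'
  let r : V × ℕ → V × ℕ → Prop := fun x y => kle (key Φ A B m x) (key Φ A B m y)
  haveI : Std.Total r := ⟨fun x y => by
    dsimp only [r, kle]; omega⟩
  haveI : IsTrans (V × ℕ) r := ⟨fun x y z h1 h2 => by
    dsimp only [r, kle] at h1 h2 ⊢; omega⟩
  set l : List (V × ℕ) := f.toList.insertionSort r with hl
  have hperm : l.Perm f.toList := List.perm_insertionSort r _
  have hnd : l.Nodup := hperm.nodup_iff.2 f.nodup_toList
  have hmem : ∀ x, x ∈ l ↔ x ∈ f := fun x => by rw [hperm.mem_iff, Finset.mem_toList]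
  have hsort : l.Pairwise r := List.pairwise_insertionSort r _
  have hpw : l.Pairwise (fun x y => E x.1 y.1 = 0) := by
    have h1 := hsort.and hnd
    refine h1.imp_of_mem ?_
    rintro x y hx hy ⟨h2, h3⟩
    have hx' := (hmem x).1 hx
    have hy' := (hmem y).1 hy
    exact (pair h hE hm hR _ x y (hf.1 x hx') (hf.1 y hy') (hf.2 x hx' y hy' h3)
      (hf.2 y hy' x hx' (Ne.symm h3)) rfl).1 h2
  have hroot : ∀ a ∈ l.map Prod.fst, a ∈ Φ := by
    intro a ha
    obtain ⟨x, hx, rfl⟩ := List.mem_map.1 ha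
    rcases hf.1 x ((hmem x).1 hx) with h1 | h1
    · exact h1.1.1
    · have := h.roots.neg (h.mem _ h1.1)
      rwa [neg_neg] at this
  have hlnc := hL V Φ A B E h hE (l.map Prod.fst) hroot (by
    rw [List.pairwise_map]; exact hpw)
  refine ⟨l, ⟨hnd, hmem, hlnc.1, ?_⟩⟩
  rw [hlnc.2, List.length_map]

end Pool.Agent.E8helper78.FL
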