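import Pool.Agent.E8helper78.FL.Cex
import Pool.Agent.E8helper40.FL.Simp
import Pool.Agent.E8helper60.FL.Word
import Pool.Agent.E8helper86.FL.Dom
import Pool.Agent.E8helper42.FL.Ncl
import Pool.Agent.E8helper40.FL.Rot1
import Pool.Agent.E8helper60.FL.Rot2
import Pool.Agent.E8helper38.FL.Rot
import Pool.Agent.E8helper56.FL.SC
import Pool.Agent.E8helper54.FL.Ex
import Pool.Agent.E8helper40.FL.Uni
import Pool.Agent.E8helper85.FL.Tri
import Pool.Agent.E8helper14.FL.Cpf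
import Pool.Agent.E8helper13.FL.Lnc

/-!
# Assembly
-/

set_option autoImplicit false

open scoped RealInnerProductSpace NNReal

namespace Pool.Agent.E8helper78.FL

theorem f_MOV : S_MOV :=
  Pool.Agent.E8helper86.FLC.t_MOV
    (Pool.Agent.E8helper86.FLC.t_FIX Pool.Agent.E8helper40.FL.t_SIMP Pool.Agent.E8helper60.FL.t_WORD)

theorem f_TRI : S_TRI := by
  have hS := Pool.Agent.E8helper40.FL.t_SIMP
  have hW := Pool.Agent.E8helper60.FL.t_WORD
  have hD := Pool.Agent.E8helper86.FLC.t_DOM hS hW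
  have hF := Pool.Agent.E8helper86.FLC.t_FIX hS hW
  have hSC := Pool.Agent.E8helper56.FL.t_SC hS f_MOV Pool.Agent.E8helper42.FL.t_NCL
  have hEX := Pool.Agent.E8helper54.FL.t_EX hSC Pool.Agent.E8helper42.FL.t_NCL
  have hI := Pool.Agent.E8helper85.FL.t_INT hEX Pool.Agent.E8helper40.FL.t_UNI
  have hR := Pool.Agent.E8helper38.FLR.t_ROT Pool.Agent.E8helper40.FL.t_ROT1
    (Pool.Agent.E8helper60.FL.t_ROT2 Pool.Agent.E8helper40.FL.t_ROT1)
  exact Pool.Agent.E8helper85.FL.t_TRI hI hD hF hR Pool.Agent.E8helper42.FL.t_EEX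
    Pool.Agent.E8helper42.FL.t_NCL

theorem f_HEL : S_HEL := Pool.Agent.E8helper85.FL.t_HEL f_TRI

theorem f_CPF : S_CPF := Pool.Agent.E8helper14.FL.t_CPF f_HEL Pool.Agent.E8helper42.FL.t_EEX

theorem f_LIST : S_LIST :=
  t_LIST Pool.Agent.E8helper42.FL.t_EEX (Pool.Agent.E8helper13.FL.t_LNC f_MOV)

theorem f_CMP (V : Type) [NormedAddCommGroup V] [InnerProductSpace ℝ V]
    (Φ : Set V) (A B : List V) (h : Bip Φ A B) (m : ℕ) (hm : 1 ≤ m) :
    ∃ R : V × ℕ → V × ℕ → Prop, IsCompat Φ A B m R :=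
  compat_exists Pool.Agent.E8helper42.FL.t_EEX V Φ A B h m hm

end Pool.Agent.E8helper78.FL
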