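import Pool.Agent.E8helper78.FL.Dual

/-!
# The rotation of coloured almost positive roots
-/

set_option autoImplicit false

open scoped RealInnerProductSpace NNReal

namespace Pool.Agent.E8helper78.FL

section

variable {V : Type} [NormedAddCommGroup V] [InnerProductSpace ℝ V]
variable {Φ : Set V} {A B : List V} (h : Bip Φ A B)
include h

/-- a vector that is positive on the simple roots -/
lemma Bip.posv : ∃ l : V, (∀ a ∈ A ++ B, 0 < ⟪l, a⟫) := by
  classical
  obtain ⟨o, ho1, ho2, -⟩ := h.std.dual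
  refine ⟨∑ d ∈ (A ++ B).toFinset, o d, fun a ha => ?_⟩
  rw [sum_inner, Finset.sum_eq_single a]
  · rw [ho2 a ha]; norm_num
  · intro d hd hne
    exact ho1 d (List.mem_toFinset.1 hd) a ha hne
  · intro h1
    exact absurd (List.mem_toFinset.2 ha) h1

lemma Bip.inner_nonneg {l : V} (hl : ∀ a ∈ A ++ B, 0 < ⟪l, a⟫) {x : V}
    (hx : x ∈ cone {a | a ∈ A ++ B}) : 0 ≤ ⟪l, x⟫ :=
  cone_nonneg hx ((innerSL ℝ l : V →L[ℝ] ℝ) : V →ₗ[ℝ] ℝ) (fun a ha => (hl a ha).le)

lemma Bip.inner_pos {l : V} (hl : ∀ a ∈ A ++ B, 0 < ⟪l, a⟫) {x : V}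
    (hx : x ∈ Pos Φ A B) : 0 < ⟪l, x⟫ := by
  refine lt_of_le_of_ne (h.inner_nonneg hl hx.2) fun h1 => ?_
  have := cone_zero hx.2 ((innerSL ℝ l : V →L[ℝ] ℝ) : V →ₗ[ℝ] ℝ) hl h1.symm
  exact h.roots.ne hx.1 this

lemma Bip.simple_pos {a : V} (ha : a ∈ A ++ B) : a ∈ Pos Φ A B := ⟨h.mem a ha, mem_cone ha⟩

lemma Bip.not_neg {x : V} (hx : x ∈ Pos Φ A B) : -x ∉ Pos Φ A B := by
  intro h1
  obtain ⟨l, hl⟩ := h.posv
  have h2 := h.inner_pos hl hx
  have h3 := h.inner_pos hl h1
  rw [inner_neg_right] at h3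
  linarith

/-- a simple reflection permutes the other positive roots -/
lemma Bip.rf_pos {s x : V} (hs : s ∈ A ++ B) (hx : x ∈ Pos Φ A B) (hne : x ≠ s) :
    rf s x ∈ Pos Φ A B := by
  obtain ⟨o, ho1, ho2, ho3⟩ := h.std.dual
  have hsu : ‖s‖ = 1 := h.roots.unit s (h.mem s hs)
  have hxu : ‖x‖ = 1 := h.roots.unit x hx.1
  have hnn : ∀ a ∈ A ++ B, ∀ y ∈ cone {a | a ∈ A ++ B}, 0 ≤ ⟪o a, y⟫ := by
    intro a ha y hy
    refine cone_nonneg hy ((innerSL ℝ (o a) : V →L[ℝ] ℝ) : V →ₗ[ℝ] ℝ) (fun b hb => ?_)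
    show 0 ≤ ⟪o a, b⟫
    by_cases hab : a = b
    · subst hab; rw [ho2 a ha]; norm_num
    · rw [ho1 a ha b hb hab]
  -- some other coefficient is positive
  have hex : ∃ a ∈ A ++ B, a ≠ s ∧ 0 < ⟪o a, x⟫ := by
    by_contra hcon
    push Not at hcon
    have h0 : ∀ a ∈ A ++ B, a ≠ s → ⟪o a, x⟫ = 0 := fun a ha has =>
      le_antisymm (hcon a ha has) (hnn a ha x hx.2)
    have h1 : x = ⟪o s, x⟫ • s := by
      rw [← sub_eq_zero]
      apply ho3
      intro a ha
      rw [inner_sub_right, inner_smul_right]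
      by_cases has : a = s
      · subst has; rw [ho2 a ha]; ring
      · rw [h0 a ha has, ho1 a ha s hs has]; ring
    have h2 : 0 ≤ ⟪o s, x⟫ := hnn s hs x hx.2
    have h3 : ⟪o s, x⟫ = 1 := by
      have := congrArg norm h1
      rw [norm_smul, hsu, hxu, mul_one, Real.norm_of_nonneg h2] at this
      exact this.symm
    rw [h3, one_smul] at h1
    exact hne h1
  obtain ⟨a, ha, has, hpos⟩ := hex
  have hroot : rf s x ∈ Φ := h.roots.refl s (h.mem s hs) x hx.1
  refine ⟨hroot, ?_⟩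
  rcases h.pos _ hroot with h4 | h4
  · exact h4
  · exfalso
    have h5 := hnn a ha _ h4
    rw [inner_neg_right, rf_apply hsu, inner_sub_right, inner_smul_right, ho1 a ha s hs has] at h5
    linarith

lemma Bip.pr_pos {L : List V} (hL : ∀ a ∈ L, a ∈ A ++ B)
    (hO : L.Pairwise (fun a b => ⟪a, b⟫ = 0)) {x : V} (hx : x ∈ Pos Φ A B) (hne : x ∉ L) :
    pr L x ∈ Pos Φ A B := by
  induction L with
  | nil => exact hx
  | cons b L ih =>
    rw [List.pairwise_cons] at hO
    have h1 := ih (fun a ha => hL a (by simp [ha])) hO.2 (fun h2 => hne (by simp [h2]))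
    rw [pr_cons_apply]
    apply h.rf_pos (hL b (by simp)) h1
    intro h2
    have hu : ∀ e ∈ L, ‖e‖ = 1 := fun e he => h.roots.unit e (h.mem e (hL e (by simp [he])))
    have h3 : pr L b = b := pr_fix hu (fun e he => by rw [real_inner_comm]; exact hO.1 e he)
    have h4 : x = b := (pr L).injective (h2.trans h3.symm)
    exact hne (by simp [h4])

/-- the Coxeter element on a positive root outside `B` -/
lemma Bip.cox_pos {x : V} (hx : x ∈ Pos Φ A B) (hB : x ∉ B) :
    cox A B x ∈ Pos Φ A B ∨ -(cox A B x) ∈ A := by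
  have h1 : pr B x ∈ Pos Φ A B := h.pr_pos (fun a ha => List.mem_append_right _ ha) h.orthB hx hB
  show pr A (pr B x) ∈ Pos Φ A B ∨ -(pr A (pr B x)) ∈ A
  by_cases h2 : pr B x ∈ A
  · right
    have hO : ∀ b ∈ A, b ≠ pr B x → ⟪b, pr B x⟫ = 0 := by
      intro e he hed
      have h2' := List.pairwise_iff_getElem.1 h.orthA
      obtain ⟨i, hi, h3⟩ := List.getElem_of_mem he
      obtain ⟨j, hj, h4⟩ := List.getElem_of_mem h2
      rw [← h3, ← h4]
      rcases lt_trichotomy i j with h5 | h5 | h5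
      · exact h2' i j hi hj h5
      · exfalso
        apply hed
        rw [← h3, ← h4]
        subst h5
        rfl
      · rw [real_inner_comm]; exact h2' j i hj hi h5
    rw [pr_orth h.orthA h.unitA h.nodupA h2 hO, h.roots.inner h1.1]
    have : -(pr B x - (2 * (1 : ℝ)) • pr B x) = pr B x := by
      rw [mul_one, two_smul]; abel
    rw [this]
    exact h2
  · left
    exact h.pr_pos (fun a ha => List.mem_append_left _ ha) h.orthA h1 h2

lemma Bip.cox_negB {b : V} (hb : b ∈ B) : cox A B (-b) ∈ Pos Φ A B := by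
  have hO : ∀ e ∈ B, e ≠ b → ⟪e, -b⟫ = 0 := by
    intro e he hed
    have h2' := List.pairwise_iff_getElem.1 h.orthB
    obtain ⟨i, hi, h3⟩ := List.getElem_of_mem he
    obtain ⟨j, hj, h4⟩ := List.getElem_of_mem hb
    rw [inner_neg_right, neg_eq_zero, ← h3, ← h4]
    rcases lt_trichotomy i j with h5 | h5 | h5
    · exact h2' i j hi hj h5
    · exfalso
      apply hed
      rw [← h3, ← h4]
      subst h5
      rfl
    · rw [real_inner_comm]; exact h2' j i hj hi h5
  show pr A (pr B (-b)) ∈ Pos Φ A B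
  have hbp := h.simple_pos (List.mem_append_right A hb)
  rw [pr_orth h.orthB h.unitB h.nodupB hb hO, inner_neg_right, h.roots.inner hbp.1]
  have : -b - (2 * (-1 : ℝ)) • b = b := by
    rw [mul_neg, mul_one, neg_smul, two_smul]; abel
  rw [this]
  exact h.pr_pos (fun a ha => List.mem_append_left _ ha) h.orthA hbp (fun h1 => h.disj h1 hb)

/-! ### the five types -/

variable {m : ℕ}

lemma rot_lt {x : V} {i : ℕ} (hx : x ∈ Pos Φ A B) (hi : i < m) :
    rot Φ A B m (x, i) = (x, i + 1) := by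
  unfold rot
  rw [if_pos ⟨hx, hi⟩]

lemma rot_B {x : V} (hx : x ∈ B) : rot Φ A B m (x, m) = (-x, 1) := by
  unfold rot
  rw [if_neg (by rintro ⟨-, h2⟩; exact lt_irrefl _ h2), if_pos (Or.inr hx)]

lemma rot_top {x : V} (hx : x ∈ Pos Φ A B) (hB : x ∉ B) :
    rot Φ A B m (x, m) = (cox A B x, 1) := by
  unfold rot
  rw [if_neg (by rintro ⟨-, h2⟩; exact lt_irrefl _ h2), if_neg]
  rintro (h1 | h1)
  · exact h.not_neg hx (h.simple_pos (List.mem_append_left _ h1))
  · exact hB h1

lemma rot_negA {a : V} (ha : a ∈ A) : rot Φ A B m (-a, 1) = (a, 1) := by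
  unfold rot
  have hp := h.simple_pos (List.mem_append_left B ha)
  rw [if_neg (by rintro ⟨h1, -⟩; exact h.not_neg hp h1), if_pos (Or.inl (by simpa using ha))]
  simp

lemma rot_negB {b : V} (hb : b ∈ B) : rot Φ A B m (-b, 1) = (cox A B (-b), 1) := by
  unfold rot
  have hp := h.simple_pos (List.mem_append_right A hb)
  rw [if_neg (by rintro ⟨h1, -⟩; exact h.not_neg hp h1), if_neg]
  rintro (h1 | h1)
  · rw [neg_neg] at h1
    exact h.disj h1 hb
  · exact h.not_neg hp (h.simple_pos (List.mem_append_right A h1))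

/-- negative simple -/
def NS (A B : List V) (x : V × ℕ) : Prop := -x.1 ∈ A ++ B

lemma rot_mem (hm : 1 ≤ m) {x : V × ℕ} (hx : x ∈ AP Φ A B m) : rot Φ A B m x ∈ AP Φ A B m := by
  obtain ⟨x, i⟩ := x
  rcases hx with ⟨h1, h2, h3⟩ | ⟨h1, h2⟩
  · dsimp only at h1 h2 h3
    rcases h3.lt_or_eq with h4 | h4
    · rw [rot_lt h h1 h4]
      exact Or.inl ⟨h1, by dsimp; omega, h4⟩
    · subst h4
      by_cases hB : x ∈ B
      · rw [rot_B h hB]
        exact Or.inr ⟨by simp [hB], rfl⟩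
      · rw [rot_top h h1 hB]
        rcases h.cox_pos h1 hB with h5 | h5
        · exact Or.inl ⟨h5, le_rfl, hm⟩
        · exact Or.inr ⟨List.mem_append_left _ h5, rfl⟩
  · dsimp only at h1 h2
    subst h2
    rcases List.mem_append.1 h1 with h3 | h3
    · have := rot_negA (m := m) h h3
      rw [neg_neg] at this
      rw [this]
      exact Or.inl ⟨h.simple_pos h1, le_rfl, hm⟩
    · have := rot_negB (m := m) h h3
      rw [neg_neg] at this
      rw [this]
      refine Or.inl ⟨?_, le_rfl, hm⟩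
      have := h.cox_negB h3
      rwa [neg_neg] at this

lemma rot_iter (hm : 1 ≤ m) {x : V × ℕ} (hx : x ∈ AP Φ A B m) (k : ℕ) :
    (rot Φ A B m)^[k] x ∈ AP Φ A B m := by
  induction k with
  | zero => exact hx
  | succ k ih =>
    rw [Function.iterate_succ_apply']
    exact rot_mem h hm ih

/-- no root stays positive for ever -/
lemma Bip.no_pos {E : V →ₗ[ℝ] V →ₗ[ℝ] ℝ} (hE : IsE (cox A B) E) {x : V} (hx : x ∈ Φ)
    (hp : ∀ j : ℕ, ((cox A B : V ≃ₗᵢ[ℝ] V) ^ j) x ∈ Pos Φ A B) : False := by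
  set c := cox A B with hc
  have hcW : c ∈ Wg Φ := mul_mem (pr_mem fun a ha => h.mem a (List.mem_append_left _ ha))
    (pr_mem fun a ha => h.mem a (List.mem_append_right _ ha))
  haveI : Finite Φ := h.roots.fin
  let f : Φ → Φ := fun a => ⟨c a.1, h.roots.map hcW a.2⟩
  have hf : Function.Injective f := fun a b hab => Subtype.ext (c.injective (congrArg Subtype.val hab))
  have hfi : ∀ j : ℕ, ∀ a : Φ, ((f^[j] a : Φ) : V) = (c ^ j) a.1 := by
    intro j
    induction j with
    | zero => intro a; rfl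
    | succ j ih =>
      intro a
      rw [Function.iterate_succ_apply', pow_succ']
      show c ((f^[j] a : Φ) : V) = c ((c ^ j) a.1)
      rw [ih]
  obtain ⟨N, hN, hper⟩ := hf.mem_periodicPts ⟨x, hx⟩
  have hcN : (c ^ N) x = x := by
    rw [← hfi N ⟨x, hx⟩]
    exact congrArg Subtype.val hper
  obtain ⟨l, hl⟩ := h.posv
  set y := ∑ j ∈ Finset.range N, (c ^ j) x with hy
  have hcy : c y = y := by
    have h1 : c y = ∑ j ∈ Finset.range N, (c ^ (j + 1)) x := by
      rw [hy, map_sum]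
      refine Finset.sum_congr rfl fun j _ => ?_
      rw [pow_succ']; rfl
    have h2 := Finset.sum_range_succ (fun j => (c ^ j) x) N
    have h3 := Finset.sum_range_succ' (fun j => (c ^ j) x) N
    rw [h1]
    rw [h2, hcN] at h3
    have h4 : (c ^ 0) x = x := rfl
    rw [h4] at h3
    exact (add_right_cancel h3).symm
  have hy0 : y = 0 := hE.inj hcy
  have hpos : 0 < ⟪l, y⟫ := by
    rw [hy, inner_sum]
    exact Finset.sum_pos (fun j _ => h.inner_pos hl (hp j)) (Finset.nonempty_range_iff.2 hN.ne')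
  rw [hy0, inner_zero_right] at hpos
  exact lt_irrefl _ hpos

/-- every orbit of the rotation meets the negative simple roots -/
lemma Bip.meets {E : V →ₗ[ℝ] V →ₗ[ℝ] ℝ} (hE : IsE (cox A B) E) (hm : 1 ≤ m) {x : V × ℕ}
    (hx : x ∈ AP Φ A B m) : ∃ k, NS A B ((rot Φ A B m)^[k] x) := by
  by_contra hcon
  push Not at hcon
  have hall : ∀ k, (rot Φ A B m)^[k] x ∈ AP Φ A B m := rot_iter h hm hx
  have hpos : ∀ k, ((rot Φ A B m)^[k] x).1 ∈ Pos Φ A B ∧ ((rot Φ A B m)^[k] x).2 ≤ m := by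
    intro k
    rcases hall k with ⟨h1, h2, h3⟩ | ⟨h1, -⟩
    · exact ⟨h1, h3⟩
    · exact absurd h1 (hcon k)
  -- reaching the top colour
  have htop : ∀ (d k : ℕ), m - ((rot Φ A B m)^[k] x).2 = d →
      ∃ k', ((rot Φ A B m)^[k'] x) = (((rot Φ A B m)^[k] x).1, m) := by
    intro d
    induction d with
    | zero =>
      intro k hk
      refine ⟨k, Prod.ext rfl ?_⟩
      have := (hpos k).2
      dsimp only
      omega
    | succ d ih =>
      intro k hk
      have h1 : (rot Φ A B m)^[k + 1] x = (((rot Φ A B m)^[k] x).1, ((rot Φ A B m)^[k] x).2 + 1) := by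
        rw [Function.iterate_succ_apply']
        exact rot_lt h (hpos k).1 (by omega)
      have h2 := ih (k + 1) (by rw [h1]; dsimp only; omega)
      rw [h1] at h2
      exact h2
  have hx1 : x.1 ∈ Pos Φ A B := (hpos 0).1
  have key : ∀ j : ℕ, ∃ k, ((rot Φ A B m)^[k] x).1 = ((cox A B : V ≃ₗᵢ[ℝ] V) ^ j) x.1 := by
    intro j
    induction j with
    | zero => exact ⟨0, rfl⟩
    | succ j ih =>
      obtain ⟨k, hk⟩ := ih
      obtain ⟨k', hk'⟩ := htop _ k rfl
      refine ⟨k' + 1, ?_⟩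
      have hnB : ((rot Φ A B m)^[k] x).1 ∉ B := by
        intro hB
        apply hcon (k' + 1)
        rw [Function.iterate_succ_apply', hk', rot_B h hB]
        show - -((rot Φ A B m)^[k] x).1 ∈ A ++ B
        rw [neg_neg]
        exact List.mem_append_right _ hB
      rw [Function.iterate_succ_apply', hk', rot_top h (hpos k).1 hnB, hk, pow_succ']
      rfl
  refine h.no_pos hE hx1.1 (fun j => ?_)
  obtain ⟨k, hk⟩ := key j
  rw [← hk]
  exact (hpos k).1

end

end Pool.Agent.E8helper78.FL
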