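import Pool.Agent.E8helper78.FL.Def

/-!
# The statements of the pieces
-/

set_option autoImplicit false

open scoped RealInnerProductSpace NNReal

namespace Pool.Agent.E8helper78.FL

section

variable {V : Type} [NormedAddCommGroup V] [InnerProductSpace ℝ V]

/-- the roots that are positive for `l` -/
def pos (Φ : Set V) (l : V) : Set V := {a | a ∈ Φ ∧ 0 < ⟪l, a⟫}

/-- the moved space `range (1 - w)` -/
def Mov (w : V ≃ₗᵢ[ℝ] V) : Submodule ℝ V :=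
  LinearMap.range ((LinearMap.id : V →ₗ[ℝ] V) - (w.toLinearEquiv : V →ₗ[ℝ] V))

/-- `E x y = ⟪(1 - c)⁻¹ x, y⟫` -/
def IsE (c : V ≃ₗᵢ[ℝ] V) (E : V →ₗ[ℝ] V →ₗ[ℝ] ℝ) : Prop := ∀ u y, E (u - c u) y = ⟪u, y⟫

/-- the form of `w` is the restriction of `E` -/
def Sub (E : V →ₗ[ℝ] V →ₗ[ℝ] ℝ) (w : V ≃ₗᵢ[ℝ] V) : Prop :=
  ∀ u u', E (u - w u) (u' - w u') = ⟪u, u' - w u'⟫

/-- noncrossing subspaces -/
def NCs (Φ : Set V) (E : V →ₗ[ℝ] V →ₗ[ℝ] ℝ) (M : Submodule ℝ V) : Prop :=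
  ∃ w ∈ Wg Φ, Mov w = M ∧ Sub E w

/-- a list of simple roots -/
structure Std (Φ : Set V) (L : List V) : Prop where
  roots : IsRoots Φ
  nodup : L.Nodup
  mem : ∀ a ∈ L, a ∈ Φ
  indep : LinearIndependent ℝ (fun a : {a // a ∈ L} => (a : V))
  span : Submodule.span ℝ {a | a ∈ L} = ⊤
  pos : ∀ a ∈ Φ, a ∈ cone {a | a ∈ L} ∨ -a ∈ cone {a | a ∈ L}

/-- the positive roots of a list of simple roots -/
def PL (Φ : Set V) (L : List V) : Set V := {a | a ∈ Φ ∧ a ∈ cone {a | a ∈ L}}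

/-- a rotating sequence of positive systems; `r i` is the root that leaves at time `i` -/
structure Rot (Φ : Set V) (E : V →ₗ[ℝ] V →ₗ[ℝ] ℝ) (l r : ℕ → V) : Prop where
  reg : ∀ i, ∀ a ∈ Φ, ⟪l i, a⟫ ≠ 0
  mem : ∀ i, r i ∈ pos Φ (l i)
  next : ∀ i, pos Φ (l (i + 1)) = (pos Φ (l i) \ {r i}) ∪ {-r i}
  nonneg : ∀ i, ∀ y ∈ pos Φ (l i), 0 ≤ E (r i) y
  nonpos : ∀ i, ∀ y ∈ pos Φ (l i), y ≠ r i → E y (r i) ≤ 0
  refl : ∀ i, ∀ y ∈ pos Φ (l i), y ≠ r i → rf (r i) y ∈ pos Φ (l i)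
  term : ∀ x : V, x ≠ 0 → ∀ i, ∃ k, i ≤ k ∧ x ∉ cone (pos Φ (l k))
  all : ∀ a ∈ Φ, ∀ i, ∃ k, i ≤ k ∧ r k = a

/-- compatible expansion of `x` -/
structure Exp (E : V →ₗ[ℝ] V →ₗ[ℝ] ℝ) (S : Set V) (x : V) (C : Finset V) (a : V → ℝ) : Prop where
  mem : ∀ b ∈ C, b ∈ S
  pos : ∀ b ∈ C, 0 < a b
  comp : ∀ b ∈ C, ∀ b' ∈ C, 0 ≤ E b b'
  sum : x = ∑ b ∈ C, a b • b

end

/-- SIMP: simple roots of a positive system -/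
def S_SIMP : Prop := ∀ (V : Type) [NormedAddCommGroup V] [InnerProductSpace ℝ V]
  [FiniteDimensional ℝ V] (Φ : Set V) (l : V), IsRoots Φ → (∀ a ∈ Φ, ⟪l, a⟫ ≠ 0) →
  ∃ D : Set V, D ⊆ pos Φ l ∧ LinearIndependent ℝ (fun a : D => (a : V)) ∧ pos Φ l ⊆ cone D ∧
    ∀ a ∈ D, ∀ b ∈ pos Φ l, b ≠ a → rf a b ∈ pos Φ l

/-- WORD: every element has a reduced word in simple reflections: for an element of the group there is a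
list of simple roots with this product such that each partial product moves the next root to a positive
root -/
def S_WORD : Prop := ∀ (V : Type) [NormedAddCommGroup V] [InnerProductSpace ℝ V]
  [FiniteDimensional ℝ V] (Φ : Set V) (l : V), IsRoots Φ → (∀ a ∈ Φ, ⟪l, a⟫ ≠ 0) →
  ∀ D : Set V, D ⊆ pos Φ l → pos Φ l ⊆ cone D →
    (∀ a ∈ D, ∀ b ∈ pos Φ l, b ≠ a → rf a b ∈ pos Φ l) →
  ∀ w ∈ Wg Φ, ∃ L : List V, (∀ a ∈ L, a ∈ D) ∧ pr L = w ∧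
    ∀ (L₁ L₂ : List V) (a : V), L = L₁ ++ a :: L₂ → pr L₁ a ∈ pos Φ l

/-- DOM: an element of the orbit of a dominant vector is lower -/
def S_DOM : Prop := ∀ (V : Type) [NormedAddCommGroup V] [InnerProductSpace ℝ V]
  [FiniteDimensional ℝ V] (Φ : Set V) (l v : V), IsRoots Φ → (∀ a ∈ Φ, ⟪l, a⟫ ≠ 0) →
  (∀ a ∈ pos Φ l, 0 ≤ ⟪v, a⟫) → ∀ w ∈ Wg Φ, v - w v ∈ cone (pos Φ l)

/-- FIX: Steinberg's theorem -/
def S_FIX : Prop := ∀ (V : Type) [NormedAddCommGroup V] [InnerProductSpace ℝ V]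
  [FiniteDimensional ℝ V] (Φ : Set V), IsRoots Φ → ∀ w ∈ Wg Φ, ∀ F : Submodule ℝ V,
  (∀ x ∈ F, w x = x) → w ∈ Wg {a | a ∈ Φ ∧ ∀ x ∈ F, ⟪x, a⟫ = 0}

/-- MOV: the moved space of an element of the group is spanned by roots -/
def S_MOV : Prop := ∀ (V : Type) [NormedAddCommGroup V] [InnerProductSpace ℝ V]
  [FiniteDimensional ℝ V] (Φ : Set V), IsRoots Φ → ∀ w ∈ Wg Φ,
  Submodule.span ℝ {a | a ∈ Φ ∧ a ∈ Mov w} = Mov w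

/-- EEX: the form exists -/
def S_EEX : Prop := ∀ (V : Type) [NormedAddCommGroup V] [InnerProductSpace ℝ V]
  [FiniteDimensional ℝ V] (Φ : Set V) (L : List V), Std Φ L →
  ∃ E : V →ₗ[ℝ] V →ₗ[ℝ] ℝ, IsE (pr L) E

/-- NCL: noncrossing subspaces -/
def S_NCL : Prop := ∀ (V : Type) [NormedAddCommGroup V] [InnerProductSpace ℝ V]
  [FiniteDimensional ℝ V] (Φ : Set V) (c : V ≃ₗᵢ[ℝ] V) (E : V →ₗ[ℝ] V →ₗ[ℝ] ℝ), IsRoots Φ →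
  IsE c E → c ∈ Wg Φ → NCs Φ E ⊤ ∧ ∀ M : Submodule ℝ V, NCs Φ E M → ∀ a ∈ Φ, a ∈ M →
    NCs Φ E (M ⊓ LinearMap.ker (E a)) ∧ NCs Φ E (M ⊓ LinearMap.ker (E.flip a)) ∧
    Module.finrank ℝ (M ⊓ LinearMap.ker (E a) : Submodule ℝ V) + 1 = Module.finrank ℝ M ∧
    Module.finrank ℝ (M ⊓ LinearMap.ker (E.flip a) : Submodule ℝ V) + 1 = Module.finrank ℝ M

/-- ROT1: one rotation -/
def S_ROT1 : Prop := ∀ (V : Type) [NormedAddCommGroup V] [InnerProductSpace ℝ V]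
  [FiniteDimensional ℝ V] (Φ : Set V) (a : V) (L : List V), Std Φ (a :: L) →
  Std Φ (L.map (rf a) ++ [-a]) ∧ pr (L.map (rf a) ++ [-a]) = pr (a :: L) ∧
  PL Φ (L.map (rf a) ++ [-a]) = (PL Φ (a :: L) \ {a}) ∪ {-a} ∧
  ∀ b ∈ PL Φ (a :: L), b ≠ a → rf a b ∈ PL Φ (a :: L)

/-- ROT2: the signs of the form -/
def S_ROT2 : Prop := ∀ (V : Type) [NormedAddCommGroup V] [InnerProductSpace ℝ V]
  [FiniteDimensional ℝ V] (Φ : Set V) (a : V) (L : List V) (E : V →ₗ[ℝ] V →ₗ[ℝ] ℝ),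
  Std Φ (a :: L) → IsE (pr (a :: L)) E →
  (∀ b ∈ PL Φ (a :: L), 0 ≤ E a b) ∧ ∀ b ∈ PL Φ (a :: L), b ≠ a → E b a ≤ 0

/-- ROT: the rotation of the positive systems -/
def S_ROT : Prop := ∀ (V : Type) [NormedAddCommGroup V] [InnerProductSpace ℝ V]
  [FiniteDimensional ℝ V] (Φ : Set V) (L : List V) (E : V →ₗ[ℝ] V →ₗ[ℝ] ℝ), L ≠ [] → Std Φ L →
  IsE (pr L) E → ∃ l r : ℕ → V, Rot Φ E l r ∧ pos Φ (l 0) = PL Φ L

/-- SC: the first root of an expansion -/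
def S_SC : Prop := ∀ (V : Type) [NormedAddCommGroup V] [InnerProductSpace ℝ V]
  [FiniteDimensional ℝ V] (Φ : Set V) (c : V ≃ₗᵢ[ℝ] V) (E : V →ₗ[ℝ] V →ₗ[ℝ] ℝ) (l r : ℕ → V),
  IsRoots Φ → IsE c E → c ∈ Wg Φ → Rot Φ E l r → ∀ M : Submodule ℝ V, NCs Φ E M →
  ∀ i, r i ∈ M → ∀ x ∈ cone {a | a ∈ pos Φ (l i) ∧ a ∈ M},
    (E x (r i) ≤ 0 → x ∈ cone {a | (a ∈ pos Φ (l i) ∧ a ≠ r i) ∧ a ∈ M}) ∧
    (0 < E x (r i) → ∃ t : ℝ, 0 < t ∧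
      ∃ y ∈ cone {a | a ∈ pos Φ (l i) ∧ a ∈ M ⊓ LinearMap.ker (E.flip (r i))}, x = t • r i + y)

/-- EX: every vector of the positive cone has a compatible expansion -/
def S_EX : Prop := ∀ (V : Type) [NormedAddCommGroup V] [InnerProductSpace ℝ V]
  [FiniteDimensional ℝ V] (Φ : Set V) (c : V ≃ₗᵢ[ℝ] V) (E : V →ₗ[ℝ] V →ₗ[ℝ] ℝ) (l r : ℕ → V),
  IsRoots Φ → IsE c E → c ∈ Wg Φ → Rot Φ E l r → ∀ M : Submodule ℝ V, NCs Φ E M →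
  ∀ i, ∀ x ∈ cone {a | a ∈ pos Φ (l i) ∧ a ∈ M},
    ∃ (C : Finset V) (a : V → ℝ), Exp E {a | a ∈ pos Φ (l i) ∧ a ∈ M} x C a

/-- UNI: it is unique -/
def S_UNI : Prop := ∀ (V : Type) [NormedAddCommGroup V] [InnerProductSpace ℝ V]
  [FiniteDimensional ℝ V] (Φ : Set V) (c : V ≃ₗᵢ[ℝ] V) (E : V →ₗ[ℝ] V →ₗ[ℝ] ℝ) (l r : ℕ → V),
  IsRoots Φ → IsE c E → Rot Φ E l r → ∀ i x (C D : Finset V) (a b : V → ℝ),
    Exp E (pos Φ (l i)) x C a → Exp E (pos Φ (l i)) x D b → C = D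

/-- INT: intersections of cones -/
def S_INT : Prop := ∀ (V : Type) [NormedAddCommGroup V] [InnerProductSpace ℝ V]
  [FiniteDimensional ℝ V] (Φ : Set V) (c : V ≃ₗᵢ[ℝ] V) (E : V →ₗ[ℝ] V →ₗ[ℝ] ℝ) (l r : ℕ → V),
  IsRoots Φ → IsE c E → c ∈ Wg Φ → Rot Φ E l r → ∀ 𝓜 : Set (Submodule ℝ V), 𝓜.Nonempty →
  (∀ M ∈ 𝓜, NCs Φ E M) → ∀ i x, (∀ M ∈ 𝓜, x ∈ cone {a | a ∈ pos Φ (l i) ∧ a ∈ M}) →
    x ∈ cone {a | a ∈ pos Φ (l i) ∧ ∀ M ∈ 𝓜, a ∈ M}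

/-- TRI: intersections of orbits -/
def S_TRI : Prop := ∀ (V : Type) [NormedAddCommGroup V] [InnerProductSpace ℝ V]
  [FiniteDimensional ℝ V] (Φ : Set V) (L : List V) (g : V → V), L ≠ [] → Std Φ L →
  (∀ x, g x - pr L (g x) = x) → ∀ a ∈ Φ, ∀ T ⊆ Φ, T.Nonempty → ∀ v : V,
  (∀ b ∈ T, ∃ w ∈ Wg Φ, w (g b) = g b ∧ w (g a) = v) →
    ∃ w ∈ Wg Φ, (∀ b ∈ T, w (g b) = g b) ∧ w (g a) = v

/-- HEL: the Helly property -/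
def S_HEL : Prop := ∀ (V : Type) [NormedAddCommGroup V] [InnerProductSpace ℝ V]
  [FiniteDimensional ℝ V] (Φ : Set V) (L : List V) (g : V → V), L ≠ [] → Std Φ L →
  (∀ x, g x - pr L (g x) = x) → ∀ (ι : Type) (s : Finset ι) (a : ι → V) (v : ι → V),
  (∀ j ∈ s, a j ∈ Φ) →
  (∀ j ∈ s, ∀ k ∈ s, ∃ w ∈ Wg Φ, w (g (a j)) = v j ∧ w (g (a k)) = v k) →
    ∃ w ∈ Wg Φ, ∀ j ∈ s, w (g (a j)) = v j

/-- CPF: the complexes are flag, given the listings -/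
def S_CPF : Prop := ∀ (V : Type) [NormedAddCommGroup V] [InnerProductSpace ℝ V]
  (Φ : Set V) (A B : List V), Bip Φ A B → ∀ (m : ℕ) (R : V × ℕ → V × ℕ → Prop)
  (L : Finset (V × ℕ) → List (V × ℕ)), (∀ f ∈ Face Φ A B m R, Listing Φ A B f (L f)) →
    IsFlag (CPF Φ A B (Face Φ A B m R) L) ∧ IsFlag (CPF Φ A B (FaceP Φ A B m R) L)

/-- LIST: the listings exist -/
def S_LIST : Prop := ∀ (V : Type) [NormedAddCommGroup V] [InnerProductSpace ℝ V]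
  (Φ : Set V) (A B : List V), Bip Φ A B → ∀ (m : ℕ), 1 ≤ m → ∀ (R : V × ℕ → V × ℕ → Prop),
  IsCompat Φ A B m R → ∀ f ∈ Face Φ A B m R, ∃ l, Listing Φ A B f l

end Pool.Agent.E8helper78.FL
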