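import Pool.Agent.E8helper78.FL.Basic

/-!
# More statements: the listings
-/

set_option autoImplicit false

open scoped RealInnerProductSpace NNReal

namespace Pool.Agent.E8helper78.FL

/-- LNC: a list of roots that is triangular for the form has a noncrossing product, reduced -/
def S_LNC : Prop := ∀ (V : Type) [NormedAddCommGroup V] [InnerProductSpace ℝ V]
  (Φ : Set V) (A B : List V) (E : V →ₗ[ℝ] V →ₗ[ℝ] ℝ), Bip Φ A B → IsE (cox A B) E →
  ∀ l : List V, (∀ a ∈ l, a ∈ Φ) → l.Pairwise (fun a b => E a b = 0) →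
    pr l ∈ NC Φ A B ∧ ell Φ (pr l) = l.length

end Pool.Agent.E8helper78.FL
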